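import Pool.Agent.TH356.Tau.Smooth

/-!
# Counting the polynomials of bounded straight-line complexity
-/

open Polynomial Finset

namespace TH356.Tau

/-- `f` is computed by a straight-line program with `n` operations `+`, `-`, `*` from `1` and `X`
(so `τ(f) ≤ n`). -/
def Computes (n : ℕ) (f : ℤ[X]) : Prop :=
  ∃ p : ℕ → ℤ[X], p 0 = 1 ∧ p 1 = X ∧
    (∀ i, 2 ≤ i → i < n + 2 → ∃ j k, j < i ∧ k < i ∧
      (p i = p j + p k ∨ p i = p j - p k ∨ p i = p j * p k)) ∧
    ∃ m, m < n + 2 ∧ p m = f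

theorem Computes.mono {n n' : ℕ} (h : n ≤ n') {f : ℤ[X]} (hf : Computes n f) : Computes n' f := by
  obtain ⟨p, h0, h1, hp, m, hm, hmf⟩ := hf
  refine ⟨fun i => if i < n + 2 then p i else 1, by simp [h0], ?_, ?_, m, by omega, ?_⟩
  · have : 1 < n + 2 := by omega
    simp only [this, if_true, h1]
  · intro i hi2 hi
    by_cases hin : i < n + 2
    · obtain ⟨j, k, hj, hk, h⟩ := hp i hi2 hin
      refine ⟨j, k, hj, hk, ?_⟩
      have hj' : j < n + 2 := by omega
      have hk' : k < n + 2 := by omega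
      simp only [hin, hj', hk', if_true]
      exact h
    · refine ⟨0, 0, by omega, by omega, Or.inr (Or.inr ?_)⟩
      have : 0 < n + 2 := by omega
      simp only [hin, this, if_true, if_false, h0, mul_one]
  · simp only [hm, if_true, hmf]

/-- the three operations -/
noncomputable def opn (o : ℕ) (a b : ℤ[X]) : ℤ[X] :=
  if o = 0 then a + b else if o = 1 then a - b else a * b

/-- the lists of results of the programs of length `n`, latest result first -/
noncomputable def progs : ℕ → Finset (List ℤ[X])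
  | 0 => {[X, 1]}
  | n + 1 =>
    (progs n).biUnion fun L => ((Finset.range 3) ×ˢ (L.toFinset ×ˢ L.toFinset)).image
      fun x => opn x.1 x.2.1 x.2.2 :: L

theorem length_progs (n : ℕ) : ∀ L ∈ progs n, L.length = n + 2 := by
  classical
  induction n with
  | zero =>
    intro L hL
    rw [progs, Finset.mem_singleton] at hL
    rw [hL]; rfl
  | succ n ih =>
    intro L hL
    rw [progs, Finset.mem_biUnion] at hL
    obtain ⟨L', hL', hL⟩ := hL
    rw [Finset.mem_image] at hL
    obtain ⟨x, _, rfl⟩ := hL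
    rw [List.length_cons, ih L' hL']

theorem card_progs_succ (n : ℕ) : (progs (n + 1)).card ≤ (progs n).card * (3 * (n + 2) ^ 2) := by
  classical
  rw [progs]
  refine Finset.card_biUnion_le_card_mul _ _ _ fun L hL => ?_
  refine Finset.card_image_le.trans ?_
  rw [Finset.card_product, Finset.card_product, Finset.card_range]
  have h1 := List.toFinset_card_le L
  rw [length_progs n L hL] at h1
  refine Nat.mul_le_mul_left _ ?_
  rw [sq]
  exact Nat.mul_le_mul h1 h1

theorem card_progs (n : ℕ) : (progs n).card ≤ (3 * (n + 1) ^ 2) ^ n := by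
  induction n with
  | zero => simp [progs]
  | succ n ih =>
    calc (progs (n + 1)).card ≤ (progs n).card * (3 * (n + 2) ^ 2) := card_progs_succ n
      _ ≤ (3 * (n + 1) ^ 2) ^ n * (3 * (n + 2) ^ 2) := Nat.mul_le_mul_right _ ih
      _ ≤ (3 * (n + 1 + 1) ^ 2) ^ n * (3 * (n + 1 + 1) ^ 2) := by
          refine Nat.mul_le_mul_right _ (Nat.pow_le_pow_left ?_ n)
          exact Nat.mul_le_mul_left _ (Nat.pow_le_pow_left (by omega) 2)
      _ = _ := by rw [← pow_succ]

/-- the polynomials computed by programs of length `n` -/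
noncomputable def polys (n : ℕ) : Finset ℤ[X] :=
  (progs n).biUnion fun L => L.toFinset

theorem card_polys (n : ℕ) : (polys n).card ≤ (n + 2) * (3 * (n + 1) ^ 2) ^ n := by
  classical
  rw [polys]
  calc _ ≤ (progs n).card * (n + 2) := by
        refine Finset.card_biUnion_le_card_mul _ _ _ fun L hL => ?_
        rw [← length_progs n L hL]
        exact List.toFinset_card_le L
    _ ≤ (3 * (n + 1) ^ 2) ^ n * (n + 2) := Nat.mul_le_mul_right _ (card_progs n)
    _ = _ := by rw [mul_comm]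

/-- the first `n + 2` results of a sequence, latest first -/
def lst (p : ℕ → ℤ[X]) : ℕ → List ℤ[X]
  | 0 => [p 1, p 0]
  | n + 1 => p (n + 2) :: lst p n

theorem mem_lst (p : ℕ → ℤ[X]) (n : ℕ) : ∀ j < n + 2, p j ∈ lst p n := by
  induction n with
  | zero =>
    intro j hj
    obtain rfl | rfl : j = 0 ∨ j = 1 := by omega
    · simp [lst]
    · simp [lst]
  | succ n ih =>
    intro j hj
    rw [lst]
    by_cases h : j = n + 2
    · rw [h]; exact List.mem_cons_self
    · exact List.mem_cons_of_mem _ (ih j (by omega))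

theorem lst_mem_progs (p : ℕ → ℤ[X]) (h0 : p 0 = 1) (h1 : p 1 = X) (n : ℕ)
    (hp : ∀ i, 2 ≤ i → i < n + 2 → ∃ j k, j < i ∧ k < i ∧
      (p i = p j + p k ∨ p i = p j - p k ∨ p i = p j * p k)) : lst p n ∈ progs n := by
  classical
  induction n with
  | zero => rw [progs, lst, h0, h1]; exact Finset.mem_singleton_self _
  | succ n ih =>
    have ih' := ih fun i hi2 hi => hp i hi2 (by omega)
    obtain ⟨j, k, hj, hk, h⟩ := hp (n + 2) (by omega) (by omega)
    rw [progs, Finset.mem_biUnion]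
    refine ⟨lst p n, ih', ?_⟩
    rw [Finset.mem_image]
    have hjm : p j ∈ lst p n := mem_lst p n j hj
    have hkm : p k ∈ lst p n := mem_lst p n k hk
    have key : ∀ o < 3, opn o (p j) (p k) = p (n + 2) →
        ∃ a ∈ (Finset.range 3) ×ˢ ((lst p n).toFinset ×ˢ (lst p n).toFinset),
          opn a.1 a.2.1 a.2.2 :: lst p n = lst p (n + 1) := by
      intro o ho hop
      refine ⟨(o, p j, p k), ?_, ?_⟩
      · simp only [Finset.mem_product, Finset.mem_range, List.mem_toFinset]
        exact ⟨ho, hjm, hkm⟩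
      · simp only [lst, hop]
    rcases h with h | h | h
    · exact key 0 (by omega) (by simp [opn, h])
    · exact key 1 (by omega) (by simp [opn, h])
    · exact key 2 (by omega) (by simp [opn, h])

theorem mem_polys {n : ℕ} {f : ℤ[X]} (hf : Computes n f) : f ∈ polys n := by
  classical
  obtain ⟨p, h0, h1, hp, m, hm, hmf⟩ := hf
  rw [polys, Finset.mem_biUnion]
  refine ⟨lst p n, lst_mem_progs p h0 h1 n hp, ?_⟩
  rw [List.mem_toFinset, ← hmf]
  exact mem_lst p n m hm

theorem card_polys_le (s : ℕ) (hs : 1 ≤ s) : (polys (s - 1)).card ≤ (3 * s ^ 2) ^ s := by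
  obtain ⟨n, rfl⟩ : ∃ n, s = n + 1 := ⟨s - 1, by omega⟩
  rw [Nat.add_sub_cancel]
  calc (polys n).card ≤ (n + 2) * (3 * (n + 1) ^ 2) ^ n := card_polys n
    _ ≤ (3 * (n + 1) ^ 2) * (3 * (n + 1) ^ 2) ^ n := by
        refine Nat.mul_le_mul_right _ ?_
        nlinarith
    _ = (3 * (n + 1) ^ 2) ^ (n + 1) := by rw [pow_succ _ n, mul_comm]

theorem two_pow_le_hf (m : ℕ) : 2 ^ m ≤ 4 * hf m := by
  have key : ∀ n : ℕ, 2 ^ n ≤ 2 * n.factorial := by
    intro n
    induction n with
    | zero => norm_num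
    | succ n ih =>
      rw [pow_succ, Nat.factorial_succ]
      rcases Nat.eq_zero_or_pos n with rfl | hn
      · norm_num
      · nlinarith [Nat.factorial_pos n]
  have h1 := key (m / 2)
  have h2 := key ((m + 1) / 2)
  have e : m = m / 2 + (m + 1) / 2 := by omega
  calc 2 ^ m = 2 ^ (m / 2) * 2 ^ ((m + 1) / 2) := by rw [← pow_add, ← e]
    _ ≤ (2 * (m / 2).factorial) * (2 * ((m + 1) / 2).factorial) := Nat.mul_le_mul h1 h2
    _ = 4 * hf m := by rw [hf]; ring

/-- a nonzero value bounds the number of integer roots -/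
theorem card_le_of_value (f : ℤ[X]) (y : ℤ) (hy : f.eval y ≠ 0) :
    (hf (rts f).card : ℤ) ≤ |f.eval y| := by
  have h := separation (f - C (f.eval y)) (c := f.eval y) (c' := 0) (y := y) hy (by simp)
  rw [sub_add_cancel, sub_zero] at h
  exact h

theorem hT_Icc (h : ℕ) : ∀ s ∈ Finset.Icc (-(2 : ℤ) ^ h) (2 ^ h),
    ∀ t ∈ Finset.Icc (-(2 : ℤ) ^ h) (2 ^ h), |s - t| < hf (h + 3 + 1) := by
  intro s hs t ht
  rw [Finset.mem_Icc] at hs ht
  have h1 := two_pow_le_hf (h + 4)
  have h2 : (2 : ℕ) ^ (h + 4) = 4 * (4 * 2 ^ h) := by ring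
  have h3 : 4 * 2 ^ h ≤ hf (h + 4) := by omega
  have h4 : (4 * 2 ^ h : ℤ) ≤ (hf (h + 4) : ℤ) := by exact_mod_cast h3
  have h5 : (0 : ℤ) < 2 ^ h := by positivity
  rw [show h + 3 + 1 = h + 4 from rfl]
  have : |s - t| ≤ 2 * 2 ^ h := by
    rw [abs_le]
    constructor <;> linarith [hs.1, hs.2, ht.1, ht.2]
  linarith

/-- **Translates.** -/
theorem translates (f : ℤ[X]) (h e s : ℕ) (hs : h + 2 < (s + 1) ^ e) :
    {c : ℤ | |c| ≤ 2 ^ h ∧ ∃ n, Computes n (f + C c) ∧ (1 + n) ^ e < (rts (f + C c)).card}.ncard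
      ≤ 1 + (3 * s ^ 2) ^ s := by
  classical
  have hs1 : 1 ≤ s := by
    by_contra hcon
    have : s = 0 := by omega
    subst this
    simp at hs
  set T := Finset.Icc (-(2 : ℤ) ^ h) (2 ^ h) with hTdef
  have hbad : (T.filter fun c => ¬ (rts (f + C c)).card ≤ h + 3).card ≤ 1 := by
    rw [Finset.card_le_one]
    intro a ha b hb
    rw [Finset.mem_filter] at ha hb
    exact atMostOne f (h + 3) (hT_Icc h a ha.1 b hb.1) (not_le.1 ha.2) (not_le.1 hb.2)
  have hcomp : (T.filter fun c => f + C c ∈ polys (s - 1)).card ≤ (3 * s ^ 2) ^ s := by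
    refine (Finset.card_le_card_of_injOn (fun c : ℤ => f + C c) ?_ ?_).trans
      (card_polys_le s hs1)
    · intro c hc
      rw [Finset.mem_coe, Finset.mem_filter] at hc
      exact hc.2
    · intro a _ b _ hab
      exact C_injective (add_left_cancel hab)
  have hsub : {c : ℤ | |c| ≤ 2 ^ h ∧ ∃ n, Computes n (f + C c) ∧
      (1 + n) ^ e < (rts (f + C c)).card} ⊆
      (((T.filter fun c => ¬ (rts (f + C c)).card ≤ h + 3) ∪
        (T.filter fun c => f + C c ∈ polys (s - 1)) : Finset ℤ) : Set ℤ) := by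
    rintro c ⟨hc, n, hn, hlt⟩
    have hcT : c ∈ T := by
      rw [hTdef, Finset.mem_Icc]
      exact abs_le.1 hc
    rw [Finset.mem_coe, Finset.mem_union, Finset.mem_filter, Finset.mem_filter]
    by_cases hb : (rts (f + C c)).card ≤ h + 3
    · right
      refine ⟨hcT, mem_polys (hn.mono ?_)⟩
      have h1 : (1 + n) ^ e < (s + 1) ^ e := by omega
      have h2 : 1 + n < s + 1 := lt_of_pow_lt_pow_left' e h1
      omega
    · exact Or.inl ⟨hcT, hb⟩
  calc _ ≤ (((T.filter fun c => ¬ (rts (f + C c)).card ≤ h + 3) ∪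
        (T.filter fun c => f + C c ∈ polys (s - 1)) : Finset ℤ) : Set ℤ).ncard :=
        Set.ncard_le_ncard hsub (Finset.finite_toSet _)
    _ = ((T.filter fun c => ¬ (rts (f + C c)).card ≤ h + 3) ∪
        (T.filter fun c => f + C c ∈ polys (s - 1)) : Finset ℤ).card := Set.ncard_coe_finset _
    _ ≤ _ := (Finset.card_union_le _ _).trans (Nat.add_le_add hbad hcomp)

end TH356.Tau
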