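import Pool.Agent.TH356.Tau.Count
import Mathlib.LinearAlgebra.Lagrange

/-!
# The number of integers at which an integer polynomial of degree at least two is small
-/

open Polynomial Finset

namespace TH356.Tau

/-- the elements of a finite set of integers in increasing order -/
noncomputable def nth (Y : Finset ℤ) (j : ℕ) : ℤ :=
  if h : j < Y.card then Y.orderEmbOfFin rfl ⟨j, h⟩ else 0

theorem nth_mem (Y : Finset ℤ) {j : ℕ} (h : j < Y.card) : nth Y j ∈ Y := by
  rw [nth, dif_pos h]
  exact Finset.orderEmbOfFin_mem _ _ _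

theorem nth_gap (Y : Finset ℤ) (i k : ℕ) (h : i + k < Y.card) :
    (k : ℤ) ≤ nth Y (i + k) - nth Y i := by
  induction k with
  | zero => simp
  | succ k ih =>
    have ih' := ih (by omega)
    have h1 : nth Y (i + k) < nth Y (i + (k + 1)) := by
      rw [nth, nth, dif_pos (show i + k < Y.card by omega), dif_pos h]
      apply (Y.orderEmbOfFin rfl).strictMono
      rw [Fin.mk_lt_mk]
      omega
    push_cast
    linarith

theorem nth_dist (Y : Finset ℤ) {i j : ℕ} (hi : i < Y.card) (hj : j < Y.card) :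
    |(i : ℤ) - j| ≤ |nth Y i - nth Y j| := by
  rcases le_total i j with h | h
  · obtain ⟨k, rfl⟩ := Nat.exists_eq_add_of_le h
    have := nth_gap Y i k hj
    rw [abs_sub_comm (i : ℤ), abs_sub_comm (nth Y i)]
    refine le_trans ?_ (le_abs_self _)
    push_cast
    rw [add_sub_cancel_left, abs_of_nonneg (by positivity)]
    exact this
  · obtain ⟨k, rfl⟩ := Nat.exists_eq_add_of_le h
    have := nth_gap Y j k hi
    refine le_trans ?_ (le_abs_self _)
    push_cast
    rw [add_sub_cancel_left, abs_of_nonneg (by positivity)]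
    exact this

theorem hf_le_prod_dist (D j : ℕ) (hj : j ∈ Finset.range (D + 1)) :
    hf D ≤ ∏ i ∈ (Finset.range (D + 1)).erase j, ((j : ℤ) - i).natAbs := by
  classical
  have hinj : Set.InjOn (fun i : ℕ => (j : ℤ) - i)
      (((Finset.range (D + 1)).erase j : Finset ℕ) : Set ℕ) := by
    intro a _ b _ hab
    simp only at hab
    omega
  have h0 : (0 : ℤ) ∉ ((Finset.range (D + 1)).erase j).image (fun i : ℕ => (j : ℤ) - i) := by
    intro h
    obtain ⟨i, hi, hi0⟩ := Finset.mem_image.1 h
    have := Finset.ne_of_mem_erase hi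
    omega
  have h := hf_le_prod _ h0
  rw [Finset.card_image_of_injOn hinj, Finset.prod_image (fun a ha b hb h => hinj ha hb h),
    Finset.card_erase_of_mem hj, Finset.card_range] at h
  exact h

theorem sq_mul_le_hf (D : ℕ) (hD : 2 ≤ D) : D ^ 2 * (D + 1) ≤ 20 * hf D := by
  have key : ∀ D : ℕ, 7 ≤ D → D ^ 2 * (D + 1) ≤ 5 * 2 ^ D := by
    intro D hD
    induction D, hD using Nat.le_induction with
    | base => norm_num
    | succ D hD ih =>
      rw [pow_succ 2 D]
      nlinarith
  rcases le_or_gt 7 D with h | h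
  · have h1 := key D h
    have h2 := two_pow_le_hf D
    omega
  · interval_cases D <;> simp [hf, Nat.factorial]

/-- **Few small values.**  If `f` has degree `D ≥ 2`, then `|f(y)| ≤ H` for at most
`D + √(20 H)` integers `y`. -/
theorem card_small_values (f : ℤ[X]) (hD : 2 ≤ f.natDegree) (H : ℕ) (Y : Finset ℤ)
    (hY : ∀ y ∈ Y, |f.eval y| ≤ H) : Y.card ≤ f.natDegree + Nat.sqrt (20 * H) := by
  classical
  set D := f.natDegree with hDdef
  rcases Y.eq_empty_or_nonempty with rfl | hne
  · simp
  have hcpos : 0 < Y.card := Finset.card_pos.2 hne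
  set M := Y.card - 1 with hM
  set q := M / D with hq
  have hMq : M < D * (q + 1) := by
    have := Nat.lt_mul_div_succ M (show 0 < D by omega)
    simpa [hq] using this
  have hDq : D * q ≤ M := Nat.mul_div_le M D
  suffices hsuff : D * q ≤ Nat.sqrt (20 * H) by
    have : Y.card ≤ D * (q + 1) := by omega
    rw [mul_add, mul_one] at this
    omega
  rcases Nat.eq_zero_or_pos q with hq0 | hq0
  · rw [hq0]; simp
  -- the interpolation points
  set v : ℕ → ℚ := fun j => (nth Y (j * q) : ℚ) with hv
  have hidx : ∀ j ∈ Finset.range (D + 1), j * q < Y.card := by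
    intro j hj
    rw [Finset.mem_range] at hj
    have : j * q ≤ D * q := Nat.mul_le_mul_right _ (by omega)
    omega
  have hdist : ∀ i ∈ Finset.range (D + 1), ∀ j ∈ Finset.range (D + 1),
      (q : ℚ) * |(i : ℚ) - j| ≤ |v i - v j| := by
    intro i hi j hj
    have h1 := nth_dist Y (hidx i hi) (hidx j hj)
    have h2 : ((|((i * q : ℕ) : ℤ) - ((j * q : ℕ) : ℤ)| : ℤ) : ℚ) ≤
        ((|nth Y (i * q) - nth Y (j * q)| : ℤ) : ℚ) := by exact_mod_cast h1
    push_cast at h2
    have h3 : (i : ℚ) * q - j * q = q * (i - j) := by ring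
    rw [h3, abs_mul, Nat.abs_cast] at h2
    exact h2
  have hinj : Set.InjOn v ((Finset.range (D + 1) : Finset ℕ) : Set ℕ) := by
    intro i hi j hj hij
    have h1 := hdist i hi j hj
    rw [hij, sub_self, abs_zero] at h1
    have hq' : (0 : ℚ) < q := by exact_mod_cast hq0
    have h2 : |(i : ℚ) - j| ≤ 0 := by
      by_contra hcon
      push Not at hcon
      have := mul_pos hq' hcon
      linarith
    have h3 : (i : ℚ) - j = 0 := abs_nonpos_iff.1 h2
    have h4 : (i : ℚ) = j := by linarith
    exact_mod_cast h4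
  set P : ℚ[X] := f.map (Int.castRingHom ℚ) with hP
  have hfne : f ≠ 0 := by
    intro h0
    rw [hDdef, h0] at hD
    simp at hD
  have hinjQ : Function.Injective (Int.castRingHom ℚ) := Int.cast_injective
  have hPdeg : P.degree = D := by
    rw [hP, degree_map_eq_of_injective hinjQ, degree_eq_natDegree hfne]
  have hcard : ((Finset.range (D + 1)).card : WithBot ℕ) = P.degree + 1 := by
    rw [hPdeg, Finset.card_range]
    push_cast
    rfl
  have hlag := Lagrange.leadingCoeff_eq_sum hinj hcard
  have hlead : (1 : ℚ) ≤ |P.leadingCoeff| := by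
    have h1 : P.leadingCoeff = ((f.leadingCoeff : ℤ) : ℚ) := by
      rw [hP, leadingCoeff_map_of_injective hinjQ]
      rfl
    rw [h1, ← Int.cast_abs]
    have : (1 : ℤ) ≤ |f.leadingCoeff| := Int.one_le_abs (leadingCoeff_ne_zero.2 hfne)
    exact_mod_cast this
  set Λ : ℚ := (q : ℚ) ^ D * (hf D : ℚ) with hΛ
  have hfpos : 0 < hf D := Nat.mul_pos (Nat.factorial_pos _) (Nat.factorial_pos _)
  have hΛpos : 0 < Λ := by
    rw [hΛ]
    have h1 : (0 : ℚ) < q := by exact_mod_cast hq0
    have h2 : (0 : ℚ) < hf D := by exact_mod_cast hfpos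
    positivity
  have hden : ∀ j ∈ Finset.range (D + 1),
      Λ ≤ |∏ i ∈ (Finset.range (D + 1)).erase j, (v j - v i)| := by
    intro j hj
    rw [Finset.abs_prod]
    have h1 : ∏ i ∈ (Finset.range (D + 1)).erase j, ((q : ℚ) * |(j : ℚ) - i|)
        ≤ ∏ i ∈ (Finset.range (D + 1)).erase j, |v j - v i| := by
      apply Finset.prod_le_prod
      · intro i _; positivity
      · intro i hi
        exact hdist j hj i (Finset.mem_of_mem_erase hi)
    rw [Finset.prod_mul_distrib, Finset.prod_const, Finset.card_erase_of_mem hj,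
      Finset.card_range, Nat.add_sub_cancel] at h1
    refine le_trans ?_ h1
    rw [hΛ]
    have h2 := hf_le_prod_dist D j hj
    have h3 : ((hf D : ℕ) : ℚ) ≤
        ((∏ i ∈ (Finset.range (D + 1)).erase j, ((j : ℤ) - i).natAbs : ℕ) : ℚ) := by
      exact_mod_cast h2
    have h4 : ((∏ i ∈ (Finset.range (D + 1)).erase j, ((j : ℤ) - i).natAbs : ℕ) : ℚ) =
        ∏ i ∈ (Finset.range (D + 1)).erase j, |(j : ℚ) - i| := by
      push_cast
      apply Finset.prod_congr rfl
      intro i _
      rw [Nat.cast_natAbs]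
      push_cast
      rfl
    rw [h4] at h3
    exact mul_le_mul_of_nonneg_left h3 (by positivity)
  have hnum : ∀ j ∈ Finset.range (D + 1), |P.eval (v j)| ≤ H := by
    intro j hj
    have h1 : P.eval (v j) = ((f.eval (nth Y (j * q)) : ℤ) : ℚ) := by
      rw [hP, hv]
      simp only
      rw [eval_intCast_map]
      rfl
    rw [h1, ← Int.cast_abs]
    have := hY _ (nth_mem Y (hidx j hj))
    exact_mod_cast this
  have hmain : Λ ≤ (D + 1) * H := by
    have h1 : |P.leadingCoeff| ≤ ∑ j ∈ Finset.range (D + 1), (H : ℚ) / Λ := by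
      rw [hlag]
      refine (Finset.abs_sum_le_sum_abs _ _).trans ?_
      apply Finset.sum_le_sum
      intro j hj
      rw [abs_div]
      exact div_le_div₀ (by positivity) (hnum j hj) hΛpos (hden j hj)
    rw [Finset.sum_const, Finset.card_range, nsmul_eq_mul] at h1
    have h2 := hlead.trans h1
    have h3 : (((D + 1 : ℕ) : ℚ) * (H / Λ)) = ((D : ℚ) + 1) * H / Λ := by
      push_cast; ring
    rw [h3, le_div_iff₀ hΛpos, one_mul] at h2
    exact h2
  have hmain' : q ^ D * hf D ≤ (D + 1) * H := by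
    rw [hΛ] at hmain
    exact_mod_cast hmain
  -- conclusion
  rw [Nat.le_sqrt']
  have h1 := sq_mul_le_hf D hD
  have h2 : q ^ 2 ≤ q ^ D := Nat.pow_le_pow_right hq0 hD
  have h3 : (D * q) ^ 2 * (D + 1) ≤ (20 * H) * (D + 1) := by
    calc (D * q) ^ 2 * (D + 1) = (D ^ 2 * (D + 1)) * q ^ 2 := by ring
      _ ≤ (20 * hf D) * q ^ D := Nat.mul_le_mul h1 h2
      _ = 20 * (q ^ D * hf D) := by ring
      _ ≤ 20 * ((D + 1) * H) := Nat.mul_le_mul_left _ hmain'
      _ = _ := by ring
  exact Nat.le_of_mul_le_mul_right h3 (by omega)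

end TH356.Tau
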