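import Pool.Agent.TH356.Tau.Honest
import Pool.Agent.TH356.Tau.Values

/-!
# Programs of bounded degree, constants in `[-H, H]`
-/

open Polynomial Finset

namespace TH356.Tau

/-- the constants `-H, …, H` -/
noncomputable def ivl (H : ℕ) : Finset ℤ := Finset.Icc (-(H : ℤ)) H

theorem card_ivl (H : ℕ) : (ivl H).card = 2 * H + 1 := by
  rw [ivl, Int.card_Icc]
  omega

theorem ivl_nonempty (H : ℕ) : (ivl H).Nonempty := by
  rw [← Finset.card_pos, card_ivl]; positivity

theorem mem_ivl {H : ℕ} {t : ℤ} : t ∈ ivl H ↔ |t| ≤ H := by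
  rw [ivl, Finset.mem_Icc, abs_le]

/-- the number of exceptional constants for polynomials of degree at most `D` -/
def exc (D H : ℕ) : ℕ := D + Nat.sqrt (20 * H)

/-- For `f` of degree at least two, the `f + t` with `|t| ≤ H` have few integer roots in
total. -/
theorem sum_rts_le (f : ℤ[X]) (hf2 : 2 ≤ f.natDegree) (H : ℕ) :
    ∑ t ∈ ivl H, (rts (f + C t)).card ≤ exc f.natDegree H := by
  classical
  rw [← Finset.card_biUnion]
  · apply card_small_values f hf2 H
    intro y hy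
    obtain ⟨t, ht, hy⟩ := Finset.mem_biUnion.1 hy
    have h1 := (mem_rts.1 hy).2
    rw [eval_add, eval_C] at h1
    have h2 : f.eval y = -t := by linarith
    rw [h2, abs_neg]
    exact mem_ivl.1 ht
  · intro s _ t _ hst
    rw [Function.onFun, Finset.disjoint_left]
    intro y hy hy'
    have h1 := (mem_rts.1 hy).2
    have h2 := (mem_rts.1 hy').2
    rw [eval_add, eval_C] at h1 h2
    exact hst (by linarith)

theorem exc_mono {D D' H : ℕ} (hD : D ≤ D') : exc D H ≤ exc D' H := Nat.add_le_add_right hD _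

theorem rts_le_one (f : ℤ[X]) (hf : f.natDegree ≤ 1) (t : ℤ) : (rts (f + C t)).card ≤ 1 :=
  (card_rts_le _).trans (by rw [natDegree_add_C]; exact hf)

/-- exceptional constants, bounded degree -/
theorem card_good_deg (D H : ℕ) (f : ℤ[X]) (hD : ∀ t ∈ ivl H, (f + C t).natDegree ≤ D) :
    (ivl H).card - exc D H ≤ ((ivl H).filter (fun t => (rts (f + C t)).card ≤ 1)).card := by
  classical
  have hfD : f.natDegree ≤ D := by
    obtain ⟨t, ht⟩ := ivl_nonempty H
    have := hD t ht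
    rwa [natDegree_add_C] at this
  rcases le_or_gt f.natDegree 1 with h1 | h1
  · have : (ivl H).filter (fun t => (rts (f + C t)).card ≤ 1) = ivl H :=
      Finset.filter_true_of_mem fun t _ => rts_le_one f h1 t
    rw [this]
    exact Nat.sub_le _ _
  · have h2 := (sum_rts_le f h1 H).trans (exc_mono hfD)
    have h3 : ((ivl H).filter (fun t => ¬ (rts (f + C t)).card ≤ 1)).card ≤
        ∑ t ∈ ivl H, (rts (f + C t)).card := by
      calc ((ivl H).filter (fun t => ¬ (rts (f + C t)).card ≤ 1)).card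
          = ∑ t ∈ (ivl H).filter (fun t => ¬ (rts (f + C t)).card ≤ 1), 1 := by simp
        _ ≤ ∑ t ∈ (ivl H).filter (fun t => ¬ (rts (f + C t)).card ≤ 1),
              (rts (f + C t)).card := by
            apply Finset.sum_le_sum
            intro t ht
            have := (Finset.mem_filter.1 ht).2
            omega
        _ ≤ _ := Finset.sum_le_sum_of_subset (Finset.filter_subset _ _)
    have h4 := Finset.card_filter_add_card_filter_not (s := ivl H)
      (fun t => (rts (f + C t)).card ≤ 1)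
    omega

theorem sum_deg (D H : ℕ) (f : ℤ[X]) (hD : ∀ t ∈ ivl H, (f + C t).natDegree ≤ D) :
    ∑ t ∈ ivl H, (rts (f + C t)).card ≤ (ivl H).card * 1 + exc D H := by
  have hfD : f.natDegree ≤ D := by
    obtain ⟨t, ht⟩ := ivl_nonempty H
    have := hD t ht
    rwa [natDegree_add_C] at this
  rcases le_or_gt f.natDegree 1 with h1 | h1
  · calc ∑ t ∈ ivl H, (rts (f + C t)).card ≤ ∑ t ∈ ivl H, 1 :=
          Finset.sum_le_sum fun t _ => rts_le_one f h1 t
      _ = (ivl H).card * 1 := by rw [Finset.sum_const, smul_eq_mul]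
      _ ≤ _ := Nat.le_add_right _ _
  · exact ((sum_rts_le f h1 H).trans (exc_mono hfD)).trans (Nat.le_add_left _ _)

/-- degrees in a program whose gates have degree at most `d` -/
theorem degOk (G : Prog) (ℓ d : ℕ) (hd : 1 ≤ d) (hG : ∀ k < ℓ, (G k).deg ≤ d) :
    ∀ (c : ℕ → ℤ), ∀ k < ℓ, (val G c (k + 2)).natDegree ≤ d ^ ℓ := by
  intro c k hk
  exact (natDegree_val_le G c hd ℓ hG (k + 1) hk).trans (Nat.pow_le_pow_right hd hk)

/-- **Mean.** -/
theorem mean_deg (G : Prog) (H ℓ d : ℕ) (hd : 1 ≤ d) (hG : ∀ k < ℓ, (G k).deg ≤ d) :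
    (ivl H).card * ∑ c ∈ box (ivl H) ℓ, (Z G (ext c) ℓ).card
      ≤ (ivl H).card ^ ℓ * ((ivl H).card * (1 + adds G ℓ) + adds G ℓ * exc (d ^ ℓ) H) := by
  have := sum_card_le G (ivl H) 1 (exc (d ^ ℓ) H) (fun P => P.natDegree ≤ d ^ ℓ)
    (fun f hf => sum_deg (d ^ ℓ) H f hf) ℓ (degOk G ℓ d hd hG)
  rwa [mul_one] at this

/-- **The inequality with the true complexity.** -/
theorem honest_deg (G : Prog) (H ℓ d e s : ℕ) (hd : 1 ≤ d) (hG : ∀ k < ℓ, (G k).deg ≤ d)
    (hs1 : 1 ≤ s) (hs : 1 + adds G ℓ ≤ (s + 1) ^ e) :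
    (failing G (ivl H) e ℓ).card * (2 * H + 1) ≤
      adds G ℓ * (d ^ ℓ + Nat.sqrt (20 * H) + (ℓ + 2) * (3 * s ^ 2) ^ s) * (2 * H + 1) ^ ℓ := by
  have hcond : 1 + adds G ℓ * 1 ≤ (s + 1) ^ e := by omega
  have hmain := card_failing_le G (ivl H) 1 (exc (d ^ ℓ) H) (fun P => P.natDegree ≤ d ^ ℓ)
    (fun f hf => card_good_deg (d ^ ℓ) H f hf) ℓ e s (degOk G ℓ d hd hG) hs1 hcond
  rw [card_ivl] at hmain
  exact hmain

end TH356.Tau
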