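import Pool.Agent.TH356.Tau.Mean
import Pool.Agent.TH356.Tau.Count

/-!
# The Shub–Smale inequality for almost all constants, in terms of the true complexity
-/

open Polynomial Finset

namespace TH356.Tau

/-- The inequality `z(P) ≤ (1 + τ(P)) ^ e` fails for `P`. -/
def Fails (e : ℕ) (P : ℤ[X]) : Prop := ∃ n, Computes n P ∧ (1 + n) ^ e < (rts P).card

/-- Every result is a monomial times a product of powers of results of additive gates. -/
theorem exists_factor (G : Prog) (r : ℕ) : ∃ (A : ℤ) (e : ℕ) (M : ℕ → ℕ),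
    (∀ i, M i ≠ 0 → i ≤ r ∧ ∃ k, i = k + 2 ∧ (G k).isAdd = true) ∧
    ∀ c L, r < L → val G c r = C A * X ^ e * ∏ i ∈ Finset.range L, val G c i ^ M i := by
  induction r using Nat.strong_induction_on with
  | _ r ih =>
    match r, ih with
    | 0, _ =>
      refine ⟨1, 0, fun _ => 0, fun i h => absurd rfl h, fun c L _ => ?_⟩
      rw [val_zero]; simp
    | 1, _ =>
      refine ⟨1, 1, fun _ => 0, fun i h => absurd rfl h, fun c L _ => ?_⟩
      rw [val_one]; simp
    | k + 2, ih =>
      cases hk : G k with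
      | add g =>
        refine ⟨1, 0, fun i => if i = k + 2 then 1 else 0, ?_, ?_⟩
        · intro i hi
          have : i = k + 2 := by
            by_contra hcon
            exact hi (if_neg hcon)
          exact ⟨this.le, k, this, by rw [hk]; rfl⟩
        · intro c L hL
          rw [Finset.prod_eq_single (k + 2)]
          · simp
          · intro i _ hi; simp [hi]
          · intro h; exact absurd (Finset.mem_range.2 hL) h
      | mul a m =>
        choose A e M hM hv using fun i : Fin (k + 2) => ih i i.isLt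
        refine ⟨a * ∏ i, A i ^ m i, ∑ i, e i * m i, fun j => ∑ i, M i j * m i, ?_, ?_⟩
        · intro j hj
          obtain ⟨i, _, hi⟩ := Finset.exists_ne_zero_of_sum_ne_zero hj
          obtain ⟨h1, h2⟩ := hM i j (left_ne_zero_of_mul hi)
          exact ⟨h1.trans i.isLt.le, h2⟩
        · intro c L hL
          rw [val_mul G c k a m hk]
          have h1 : ∀ i : Fin (k + 2), val G c i ^ m i =
              C (A i ^ m i) * X ^ (e i * m i) *
                ∏ j ∈ Finset.range L, val G c j ^ (M i j * m i) := by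
            intro i
            conv_lhs => rw [hv i c L (by omega)]
            rw [mul_pow, mul_pow, ← C_pow, ← pow_mul, ← Finset.prod_pow]
            simp only [← pow_mul]
          rw [Finset.prod_congr rfl fun i _ => h1 i, Finset.prod_mul_distrib,
            Finset.prod_mul_distrib, Finset.prod_comm, ← map_prod C, Finset.prod_pow_eq_pow_sum]
          have h2 : ∏ y ∈ Finset.range L, ∏ x : Fin (k + 2), val G c y ^ (M x y * m x)
              = ∏ y ∈ Finset.range L, val G c y ^ ∑ i, M i y * m i := by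
            apply Finset.prod_congr rfl
            intro y _
            rw [Finset.prod_pow_eq_pow_sum]
          rw [h2, C_mul]
          ring

/-- The injectivity behind the count: changing one constant changes the result, even up to
constant factors. -/
theorem eq_of_pow_mul_eq (f : ℤ[X]) {a b : ℤ} {m : ℕ} (hm : m ≠ 0) {K K' : ℤ[X]}
    (hK' : K' ≠ 0) (hK'd : K'.natDegree = 0) (hp : (f + C a).natDegree ≠ 0)
    (h : (f + C a) ^ m * K = (f + C b) ^ m * K') : a = b := by
  obtain ⟨z, hz⟩ : ∃ z : ℂ, aeval z (f + C a) = 0 := by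
    apply IsAlgClosed.exists_aeval_eq_zero
    intro hdeg
    apply hp
    rw [natDegree, hdeg]; rfl
  have h1 := congrArg (aeval z) h
  rw [map_mul, map_mul, map_pow, map_pow, hz, zero_pow hm, zero_mul] at h1
  have h2 : aeval z K' ≠ 0 := by
    rw [eq_C_of_natDegree_eq_zero hK'd, aeval_C]
    intro h0
    apply hK'
    rw [eq_C_of_natDegree_eq_zero hK'd]
    have : K'.coeff 0 = 0 := by simpa using h0
    rw [this, C_0]
  have h3 : aeval z (f + C b) = 0 := by
    rcases mul_eq_zero.1 h1.symm with h | h
    · exact pow_eq_zero_iff hm |>.1 h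
    · exact absurd h h2
  rw [map_add, aeval_C] at hz h3
  have h4 : (algebraMap ℤ ℂ) a = (algebraMap ℤ ℂ) b := by
    have := hz.trans h3.symm
    exact add_left_cancel this
  simpa using h4

theorem natDegree_prod_zero {s : Finset ℕ} {g : ℕ → ℤ[X]} {M : ℕ → ℕ}
    (h : ∀ j ∈ s, M j ≠ 0 → (g j).natDegree = 0) : (∏ j ∈ s, g j ^ M j).natDegree = 0 := by
  have h1 : (∏ j ∈ s, g j ^ M j).natDegree ≤ ∑ j ∈ s, (g j ^ M j).natDegree :=
    natDegree_prod_le _ _
  have h2 : ∑ j ∈ s, (g j ^ M j).natDegree = 0 := by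
    apply Finset.sum_eq_zero
    intro j hj
    by_cases hM : M j = 0
    · rw [hM, pow_zero, natDegree_one]
    · have := (natDegree_pow_le (p := g j) (n := M j))
      rw [h j hj hM, mul_zero] at this
      omega
  omega

open Classical in
/-- the assignments for which `r` is a value in `Q` and `k + 2` is the last nonconstant factor -/
noncomputable def B (G : Prog) (T : Finset ℤ) (ℓ : ℕ) (Q : Finset ℤ[X]) (M : ℕ → ℕ) (r k : ℕ) :
    Finset (Fin ℓ → ℤ) :=
  (box T ℓ).filter fun c => val G (ext c) r ≠ 0 ∧ val G (ext c) r ∈ Q ∧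
    (val G (ext c) (k + 2)).natDegree ≠ 0 ∧
    ∀ j, k + 2 < j → M j ≠ 0 → (val G (ext c) j).natDegree = 0

theorem card_B_le (G : Prog) (T : Finset ℤ) (ℓ : ℕ) (Q : Finset ℤ[X]) (r k : ℕ)
    (A : ℤ) (e : ℕ) (M : ℕ → ℕ) (hkℓ : k < ℓ) (hM : M (k + 2) ≠ 0) (hr : k + 2 ≤ r)
    (hadd : (G k).isAdd = true)
    (hv : ∀ c L, r < L → val G c r = C A * X ^ e * ∏ i ∈ Finset.range L, val G c i ^ M i) :
    (B G T ℓ Q M r k).card * T.card ≤ T.card ^ ℓ * Q.card := by
  classical
  obtain ⟨ℓ', rfl⟩ : ∃ ℓ', ℓ = ℓ' + 1 := ⟨ℓ - 1, by omega⟩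
  set k' : Fin (ℓ' + 1) := ⟨k, hkℓ⟩ with hk'
  obtain ⟨g, hg⟩ : ∃ g, G k = .add g := by
    cases hG : G k with
    | mul a m => rw [hG] at hadd; simp [Gate.isAdd] at hadd
    | add g => exact ⟨g, rfl⟩
  set W : Finset (Fin (ℓ' + 1) → ℤ) :=
    Fintype.piFinset (fun j => if j = k' then ({0} : Finset ℤ) else T) with hW
  have hWcard : W.card = T.card ^ ℓ' := by
    rw [hW, Fintype.card_piFinset, ← Finset.mul_prod_erase _ _ (Finset.mem_univ k')]
    simp only [if_true, Finset.card_singleton, one_mul]
    rw [Finset.prod_congr rfl (g := fun _ => T.card)]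
    · rw [Finset.prod_const, Finset.card_erase_of_mem (Finset.mem_univ k')]
      simp
    · intro j hj
      rw [if_neg (Finset.ne_of_mem_erase hj)]
  have hle : (B G T (ℓ' + 1) Q M r k).card ≤ (W ×ˢ Q).card := by
    apply Finset.card_le_card_of_injOn
      (fun c => (Function.update c k' 0, val G (ext c) r))
    · intro c hc
      rw [Finset.mem_coe, B, Finset.mem_filter] at hc
      rw [Finset.mem_coe, Finset.mem_product]
      refine ⟨?_, hc.2.2.1⟩
      rw [hW, Fintype.mem_piFinset]
      intro j
      by_cases hj : j = k'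
      · subst hj
        simp
      · simp only [if_neg hj]
        rw [Function.update_of_ne hj]
        exact mem_box.1 hc.1 j
    · intro c hc c' hc' hcc
      rw [Finset.mem_coe, B, Finset.mem_filter] at hc hc'
      obtain ⟨-, hne, -, hdk, htop⟩ := hc
      obtain ⟨-, hne', -, -, htop'⟩ := hc'
      have hcc1 : Function.update c k' 0 = Function.update c' k' 0 := congrArg Prod.fst hcc
      have hcc2 : val G (ext c) r = val G (ext c') r := congrArg Prod.snd hcc
      have hoff : ∀ j, j ≠ k' → c j = c' j := by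
        intro j hj
        have := congrFun hcc1 j
        rwa [Function.update_of_ne hj, Function.update_of_ne hj] at this
      have hext : ∀ j < k, ext c' j = ext c j := by
        intro j hj
        have hj' : j < ℓ' + 1 := by omega
        simp only [ext, dif_pos hj']
        refine (hoff _ ?_).symm
        rw [hk']
        intro h
        have := congrArg Fin.val h
        simp at this
        omega
      obtain ⟨f, hf⟩ := Z_succ_add G k g hg (ext c)
      have hf1 := (hf (ext c) (fun _ _ => rfl)).1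
      have hf2 := (hf (ext c') hext).1
      have hek : ∀ d : Fin (ℓ' + 1) → ℤ, ext d k = d k' := by
        intro d
        simp only [ext, dif_pos hkℓ, hk']
      rw [hek] at hf1 hf2
      have hfinal : c k' = c' k' := by
        -- split the product
        have hsplit : ∀ d : ℕ → ℤ, ∏ i ∈ Finset.range (r + 1), val G d i ^ M i =
            (∏ i ∈ Finset.range (k + 2), val G d i ^ M i) * (val G d (k + 2) ^ M (k + 2) *
              ∏ i ∈ Finset.Ico (k + 2 + 1) (r + 1), val G d i ^ M i) := by
          intro d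
          rw [← Finset.prod_range_mul_prod_Ico _ (show k + 2 ≤ r + 1 by omega),
            Finset.prod_eq_prod_Ico_succ_bot (show k + 2 < r + 1 by omega)]
        have h1 := hv (ext c) (r + 1) (by omega)
        have h2 := hv (ext c') (r + 1) (by omega)
        rw [hsplit] at h1 h2
        have hlow : ∏ i ∈ Finset.range (k + 2), val G (ext c') i ^ M i =
            ∏ i ∈ Finset.range (k + 2), val G (ext c) i ^ M i := by
          apply Finset.prod_congr rfl
          intro i hi
          rw [val_congr G hext i (Finset.mem_range.1 hi)]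
        rw [hlow] at h2
        set R := ∏ i ∈ Finset.range (k + 2), val G (ext c) i ^ M i with hR
        set K := ∏ i ∈ Finset.Ico (k + 2 + 1) (r + 1), val G (ext c) i ^ M i with hK
        set K' := ∏ i ∈ Finset.Ico (k + 2 + 1) (r + 1), val G (ext c') i ^ M i with hK'
        have h3 : (C A * X ^ e * R) * (val G (ext c) (k + 2) ^ M (k + 2) * K)
            = (C A * X ^ e * R) * (val G (ext c') (k + 2) ^ M (k + 2) * K') := by
          rw [mul_assoc (C A * X ^ e), mul_assoc (C A * X ^ e), ← h1, ← h2, hcc2]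
        have hne2 : C A * X ^ e * R ≠ 0 := by
          intro h0
          apply hne
          rw [h1, ← mul_assoc, h0, zero_mul]
        have h4 := mul_left_cancel₀ hne2 h3
        have hK'ne : K' ≠ 0 := by
          intro h0
          apply hne'
          rw [h2, h0, mul_zero, mul_zero, mul_zero]
        have hK'd : K'.natDegree = 0 := by
          apply natDegree_prod_zero
          intro j hj hMj
          rw [Finset.mem_Ico] at hj
          exact htop' j (by omega) hMj
        rw [hf1, hf2] at h4
        rw [hf1] at hdk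
        exact eq_of_pow_mul_eq f hM hK'ne hK'd hdk h4
      funext j
      by_cases hj : j = k'
      · rw [hj]; exact hfinal
      · exact hoff j hj
  rw [Finset.card_product, hWcard] at hle
  calc (B G T (ℓ' + 1) Q M r k).card * T.card ≤ (T.card ^ ℓ' * Q.card) * T.card :=
        Nat.mul_le_mul_right _ hle
    _ = _ := by rw [pow_succ]; ring

theorem bernoulli (t a b : ℕ) : t ^ a * t ≤ (t - b) ^ a * t + a * b * t ^ a := by
  rcases le_or_gt b t with h | h
  · obtain ⟨u, rfl⟩ : ∃ u, t = u + b := ⟨t - b, by omega⟩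
    rw [Nat.add_sub_cancel]
    induction a with
    | zero => simp
    | succ a ih =>
      have h1 : u ^ a ≤ (u + b) ^ a := Nat.pow_le_pow_left (by omega) a
      calc (u + b) ^ (a + 1) * (u + b) = ((u + b) ^ a * (u + b)) * (u + b) := by rw [pow_succ]
        _ ≤ (u ^ a * (u + b) + a * b * (u + b) ^ a) * (u + b) := Nat.mul_le_mul_right _ ih
        _ = u ^ (a + 1) * (u + b) + b * (u ^ a * (u + b)) + a * b * (u + b) ^ (a + 1) := by ring
        _ ≤ u ^ (a + 1) * (u + b) + b * ((u + b) ^ a * (u + b)) +
            a * b * (u + b) ^ (a + 1) := by gcongr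
        _ = _ := by ring
  · rcases Nat.eq_zero_or_pos a with rfl | ha
    · simp
    · calc t ^ a * t ≤ (a * b) * t ^ a := by
            rw [mul_comm]
            refine Nat.mul_le_mul_right _ ?_
            calc t ≤ b := h.le
              _ = 1 * b := (one_mul b).symm
              _ ≤ a * b := Nat.mul_le_mul_right _ ha
        _ ≤ _ := Nat.le_add_left _ _

/-- the number of assignments that are not good -/
theorem card_bad_le (G : Prog) (T : Finset ℤ) (N b : ℕ) (Ok : ℤ[X] → Prop)
    (hT : ∀ f : ℤ[X], (∀ t ∈ T, Ok (f + C t)) →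
      T.card - b ≤ (T.filter (fun t => (rts (f + C t)).card ≤ N)).card) (ℓ : ℕ)
    (hOk : ∀ (c : ℕ → ℤ), ∀ k < ℓ, Ok (val G c (k + 2))) :
    ((box T ℓ) \ (good G T N ℓ)).card * T.card ≤ adds G ℓ * b * T.card ^ ℓ := by
  classical
  have hsub : good G T N ℓ ⊆ box T ℓ := Finset.filter_subset _ _
  rw [Finset.card_sdiff_of_subset hsub, card_box]
  have h1 := card_good_ge G T N b Ok hT ℓ hOk
  have hle := adds_le G ℓ
  set a := adds G ℓ with ha
  set t := T.card with ht
  have h2 := bernoulli t a b
  have h3 : t ^ ℓ = t ^ a * t ^ (ℓ - a) := by rw [← pow_add]; congr 1; omega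
  have h4 : t ^ ℓ * t ≤ ((t - b) ^ a * t ^ (ℓ - a)) * t + a * b * t ^ ℓ := by
    calc t ^ ℓ * t = (t ^ a * t) * t ^ (ℓ - a) := by rw [h3]; ring
      _ ≤ ((t - b) ^ a * t + a * b * t ^ a) * t ^ (ℓ - a) := Nat.mul_le_mul_right _ h2
      _ = ((t - b) ^ a * t ^ (ℓ - a)) * t + a * b * (t ^ a * t ^ (ℓ - a)) := by ring
      _ = _ := by rw [← h3]
  have h5 : ((t - b) ^ a * t ^ (ℓ - a)) * t ≤ (good G T N ℓ).card * t :=
    Nat.mul_le_mul_right _ h1
  rw [Nat.sub_mul]
  omega

open Classical in
/-- The assignments for which the inequality fails for one of the results. -/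
noncomputable def failing (G : Prog) (T : Finset ℤ) (e ℓ : ℕ) : Finset (Fin ℓ → ℤ) :=
  (box T ℓ).filter fun c => ∃ r < ℓ + 2, Fails e (val G (ext c) r)

theorem card_failing_le (G : Prog) (T : Finset ℤ) (N b : ℕ) (Ok : ℤ[X] → Prop)
    (hT : ∀ f : ℤ[X], (∀ t ∈ T, Ok (f + C t)) →
      T.card - b ≤ (T.filter (fun t => (rts (f + C t)).card ≤ N)).card) (ℓ e s : ℕ)
    (hOk : ∀ (c : ℕ → ℤ), ∀ k < ℓ, Ok (val G c (k + 2))) (hs1 : 1 ≤ s)
    (hs : 1 + adds G ℓ * N ≤ (s + 1) ^ e) :
    (failing G T e ℓ).card * T.card ≤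
      adds G ℓ * (b + (ℓ + 2) * (3 * s ^ 2) ^ s) * T.card ^ ℓ := by
  classical
  choose A E M hM hv using fun r => exists_factor G r
  set Q := polys (s - 1) with hQ
  set K := (Finset.range ℓ).filter fun k => (G k).isAdd = true with hK
  set U := (Finset.range (ℓ + 2)).biUnion fun r =>
    (K.filter fun k => M r (k + 2) ≠ 0 ∧ k + 2 ≤ r).biUnion fun k => B G T ℓ Q (M r) r k with hU
  have hsub : failing G T e ℓ ⊆ (box T ℓ \ good G T N ℓ) ∪ U := by
    intro c hc
    rw [failing, Finset.mem_filter] at hc
    obtain ⟨hcb, r, hr, n, hn, hlt⟩ := hc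
    rw [Finset.mem_union]
    by_cases hgood : c ∈ good G T N ℓ
    · right
      have hZ : (rts (val G (ext c) r)).card ≤ (Z G (ext c) ℓ).card := by
        apply Finset.card_le_card
        intro y hy
        rw [Z, Finset.mem_biUnion]
        exact ⟨r, Finset.mem_range.2 hr, hy⟩
      have hg := (mem_good.1 hgood).2
      have hns : n ≤ s - 1 := by
        have h1 : (1 + n) ^ e < (s + 1) ^ e := by omega
        have h2 : 1 + n < s + 1 := lt_of_pow_lt_pow_left' e h1
        omega
      have hPQ : val G (ext c) r ∈ Q := mem_polys (hn.mono hns)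
      have hcard : 1 < (rts (val G (ext c) r)).card :=
        lt_of_le_of_lt (Nat.one_le_pow _ _ (by omega)) hlt
      obtain ⟨y, hy, hy0⟩ : ∃ y ∈ rts (val G (ext c) r), y ≠ 0 := by
        obtain ⟨y1, hy1, y2, hy2, hne⟩ := Finset.one_lt_card.1 hcard
        by_cases h : y1 = 0
        · exact ⟨y2, hy2, fun h2 => hne (h.trans h2.symm)⟩
        · exact ⟨y1, hy1, h⟩
      rw [mem_rts] at hy
      obtain ⟨hne, hy⟩ := hy
      -- some factor vanishes at `y`
      have hfac := hv r (ext c) (r + 1) (by omega)
      have hex : ∃ i, M r i ≠ 0 ∧ (val G (ext c) i).natDegree ≠ 0 := by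
        have hy' := hy
        rw [hfac, eval_mul, eval_mul, eval_C, eval_pow, eval_X, eval_prod] at hy'
        have hA : A r ≠ 0 := by
          intro h0
          apply hne
          rw [hfac, h0]; simp
        have hprod : ∏ i ∈ Finset.range (r + 1), eval y (val G (ext c) i ^ M r i) = 0 := by
          rcases mul_eq_zero.1 hy' with h | h
          · rcases mul_eq_zero.1 h with h | h
            · exact absurd h hA
            · exact absurd h (pow_ne_zero _ hy0)
          · exact h
        obtain ⟨i, hi, hi0⟩ := Finset.prod_eq_zero_iff.1 hprod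
        rw [eval_pow] at hi0
        have hMi : M r i ≠ 0 := by
          intro h0
          rw [h0, pow_zero] at hi0
          exact one_ne_zero hi0
        have hvi : eval y (val G (ext c) i) = 0 := (pow_eq_zero_iff hMi).1 hi0
        refine ⟨i, hMi, fun hdeg => ?_⟩
        rw [eq_C_of_natDegree_eq_zero hdeg, eval_C] at hvi
        apply hne
        rw [hfac]
        have : ∏ i ∈ Finset.range (r + 1), val G (ext c) i ^ M r i = 0 := by
          apply Finset.prod_eq_zero hi
          rw [eq_C_of_natDegree_eq_zero hdeg, hvi, C_0, zero_pow hMi]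
        rw [this, mul_zero]
      -- the largest such index
      have hbdd : ∀ i, M r i ≠ 0 ∧ (val G (ext c) i).natDegree ≠ 0 → i ≤ r :=
        fun i hi => (hM r i hi.1).1
      obtain ⟨i, hi, himax⟩ : ∃ i, (M r i ≠ 0 ∧ (val G (ext c) i).natDegree ≠ 0) ∧
          ∀ j, (M r j ≠ 0 ∧ (val G (ext c) j).natDegree ≠ 0) → j ≤ i := by
        obtain ⟨i0, hi0⟩ := hex
        refine ⟨Nat.findGreatest (fun i => M r i ≠ 0 ∧ (val G (ext c) i).natDegree ≠ 0) r,
          Nat.findGreatest_spec (P := fun i => M r i ≠ 0 ∧ (val G (ext c) i).natDegree ≠ 0)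
            (hbdd i0 hi0) hi0, fun j hj => Nat.le_findGreatest (hbdd j hj) hj⟩
      obtain ⟨hir, k, rfl, hadd⟩ := hM r i hi.1
      rw [hU, Finset.mem_biUnion]
      refine ⟨r, Finset.mem_range.2 hr, ?_⟩
      rw [Finset.mem_biUnion]
      refine ⟨k, ?_, ?_⟩
      · rw [Finset.mem_filter, hK, Finset.mem_filter, Finset.mem_range]
        exact ⟨⟨by omega, hadd⟩, hi.1, hir⟩
      · rw [B, Finset.mem_filter]
        refine ⟨hcb, hne, hPQ, hi.2, fun j hj hMj => ?_⟩
        by_contra hcon
        have := himax j ⟨hMj, hcon⟩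
        omega
    · left
      rw [Finset.mem_sdiff]
      exact ⟨hcb, hgood⟩
  have hUcard : U.card * T.card ≤ (ℓ + 2) * (adds G ℓ * (T.card ^ ℓ * Q.card)) := by
    have h1 : U.card ≤ ∑ r ∈ Finset.range (ℓ + 2),
        ∑ k ∈ (K.filter fun k => M r (k + 2) ≠ 0 ∧ k + 2 ≤ r), (B G T ℓ Q (M r) r k).card :=
      Finset.card_biUnion_le.trans (Finset.sum_le_sum fun r _ => Finset.card_biUnion_le)
    calc U.card * T.card ≤ (∑ r ∈ Finset.range (ℓ + 2),
        ∑ k ∈ (K.filter fun k => M r (k + 2) ≠ 0 ∧ k + 2 ≤ r),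
          (B G T ℓ Q (M r) r k).card) * T.card := Nat.mul_le_mul_right _ h1
      _ = ∑ r ∈ Finset.range (ℓ + 2),
        ∑ k ∈ (K.filter fun k => M r (k + 2) ≠ 0 ∧ k + 2 ≤ r),
          (B G T ℓ Q (M r) r k).card * T.card := by
          rw [Finset.sum_mul]
          exact Finset.sum_congr rfl fun r _ => Finset.sum_mul _ _ _
      _ ≤ ∑ r ∈ Finset.range (ℓ + 2), adds G ℓ * (T.card ^ ℓ * Q.card) := by
          apply Finset.sum_le_sum
          intro r _
          calc _ ≤ ∑ k ∈ (K.filter fun k => M r (k + 2) ≠ 0 ∧ k + 2 ≤ r),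
                (T.card ^ ℓ * Q.card) := by
                apply Finset.sum_le_sum
                intro k hk
                rw [Finset.mem_filter, hK, Finset.mem_filter, Finset.mem_range] at hk
                exact card_B_le G T ℓ Q r k (A r) (E r) (M r) hk.1.1 hk.2.1 hk.2.2 hk.1.2 (hv r)
            _ = (K.filter fun k => M r (k + 2) ≠ 0 ∧ k + 2 ≤ r).card * (T.card ^ ℓ * Q.card) := by
                rw [Finset.sum_const, smul_eq_mul]
            _ ≤ adds G ℓ * (T.card ^ ℓ * Q.card) :=
                Nat.mul_le_mul_right _ (Finset.card_le_card (Finset.filter_subset _ _))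
      _ = _ := by rw [Finset.sum_const, Finset.card_range, smul_eq_mul]
  have hQcard : Q.card ≤ (3 * s ^ 2) ^ s := card_polys_le s hs1
  calc (failing G T e ℓ).card * T.card
      ≤ ((box T ℓ \ good G T N ℓ).card + U.card) * T.card :=
        Nat.mul_le_mul_right _ ((Finset.card_le_card hsub).trans (Finset.card_union_le _ _))
    _ = (box T ℓ \ good G T N ℓ).card * T.card + U.card * T.card := by rw [add_mul]
    _ ≤ adds G ℓ * b * T.card ^ ℓ + (ℓ + 2) * (adds G ℓ * (T.card ^ ℓ * Q.card)) :=
        Nat.add_le_add (card_bad_le G T N b Ok hT ℓ hOk) hUcard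
    _ ≤ adds G ℓ * b * T.card ^ ℓ +
          (ℓ + 2) * (adds G ℓ * (T.card ^ ℓ * (3 * s ^ 2) ^ s)) := by
        gcongr
    _ = _ := by ring

end TH356.Tau
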