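import Pool.Agent.TH356.Tau.Program

/-!
# The mean number of integer roots
-/

open Polynomial Finset

namespace TH356.Tau

theorem natDegree_val_le (G : Prog) (c : ℕ → ℤ) {d : ℕ} (hd : 1 ≤ d) (ℓ : ℕ)
    (hG : ∀ k < ℓ, (G k).deg ≤ d) : ∀ j ≤ ℓ, (val G c (j + 1)).natDegree ≤ d ^ j := by
  intro j
  induction j using Nat.strong_induction_on with
  | _ j ih =>
    intro hj
    match j, ih, hj with
    | 0, _, _ => rw [val_one]; simp
    | k + 1, ih, hj =>
      have hprev : ∀ i : Fin (k + 2), (val G c i).natDegree ≤ d ^ k := by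
        rintro ⟨i, hi⟩
        match i, hi with
        | 0, _ => rw [val_zero]; simp
        | i + 1, hi =>
          exact (ih i (by omega) (by omega)).trans (Nat.pow_le_pow_right hd (by omega))
      have hdeg := hG k (by omega)
      cases hk : G k with
      | mul a m =>
        rw [show k + 1 + 1 = k + 2 from rfl, val_mul G c k a m hk]
        rw [hk] at hdeg
        simp only [Gate.deg] at hdeg
        refine (natDegree_C_mul_le _ _).trans ((natDegree_prod_le _ _).trans ?_)
        calc ∑ i : Fin (k + 2), ((val G c i) ^ m i).natDegree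
            ≤ ∑ i : Fin (k + 2), m i * d ^ k :=
              Finset.sum_le_sum fun i _ => natDegree_pow_le.trans (Nat.mul_le_mul_left _ (hprev i))
          _ = (∑ i : Fin (k + 2), m i) * d ^ k := by rw [Finset.sum_mul]
          _ ≤ d * d ^ k := Nat.mul_le_mul_right _ hdeg
          _ = d ^ (k + 1) := by rw [pow_succ, mul_comm]
      | add g =>
        rw [show k + 1 + 1 = k + 2 from rfl, val_add G c k g hk]
        rw [hk] at hdeg
        simp only [Gate.deg] at hdeg
        rw [natDegree_add_C]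
        calc _ ≤ d * d ^ k := MvPolynomial.aeval_natDegree_le g hdeg _ hprev
          _ = d ^ (k + 1) := by rw [pow_succ, mul_comm]

/-- summation over the vectors of length `ℓ + 1` -/
theorem sum_box_succ (T : Finset ℤ) (ℓ : ℕ) (F : (Fin (ℓ + 1) → ℤ) → ℕ) :
    ∑ c ∈ box T (ℓ + 1), F c = ∑ c ∈ box T ℓ, ∑ t ∈ T, F (Fin.snoc c t) := by
  rw [← Finset.sum_product']
  symm
  refine Finset.sum_nbij' (fun p => (Fin.snoc p.1 p.2 : Fin (ℓ + 1) → ℤ))
    (fun c => (Fin.init c, c (Fin.last ℓ))) ?_ ?_ ?_ ?_ ?_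
  · rintro ⟨c, t⟩ hp
    rw [Finset.mem_product] at hp
    exact snoc_mem_box hp.1 hp.2
  · intro c hc
    rw [mem_box] at hc
    rw [Finset.mem_product]
    exact ⟨mem_box.2 fun k => hc _, hc _⟩
  · rintro ⟨c, t⟩ _
    simp
  · intro c _
    simp
  · intro p _
    rfl

/-- **Mean.** -/
theorem sum_card_le (G : Prog) (T : Finset ℤ) (N D : ℕ) (Ok : ℤ[X] → Prop)
    (hT : ∀ f : ℤ[X], (∀ t ∈ T, Ok (f + C t)) →
      ∑ t ∈ T, (rts (f + C t)).card ≤ T.card * N + D) (ℓ : ℕ)
    (hOk : ∀ (c : ℕ → ℤ), ∀ k < ℓ, Ok (val G c (k + 2))) :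
    T.card * ∑ c ∈ box T ℓ, (Z G (ext c) ℓ).card
      ≤ T.card ^ ℓ * (T.card * (1 + adds G ℓ * N) + adds G ℓ * D) := by
  classical
  induction ℓ with
  | zero =>
    have h0 : adds G 0 = 0 := by simp [adds]
    rw [h0]
    have h1 : ∑ c ∈ box T 0, (Z G (ext c) 0).card ≤ ∑ c ∈ box T 0, 1 :=
      Finset.sum_le_sum fun c _ => Z_zero G _
    rw [Finset.sum_const, card_box, smul_eq_mul, pow_zero] at h1
    simp only [pow_zero, zero_mul, add_zero, mul_one, one_mul]
    exact (Nat.mul_le_mul_left _ h1).trans (by omega)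
  | succ ℓ ih =>
    have ih' := ih fun c k hk => hOk c k (by omega)
    rw [sum_box_succ]
    cases hG : G ℓ with
    | mul a m =>
      rw [adds_succ_mul G ℓ a m hG]
      have h1 : ∀ c ∈ box T ℓ, ∑ t ∈ T, (Z G (ext (Fin.snoc c t : Fin (ℓ + 1) → ℤ)) (ℓ + 1)).card
          = T.card * (Z G (ext c) ℓ).card := by
        intro c _
        rw [← smul_eq_mul, ← Finset.sum_const]
        apply Finset.sum_congr rfl
        intro t _
        rw [Z_succ_mul G _ ℓ a m hG, Z_congr G (ext_snoc_lt c t)]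
      rw [Finset.sum_congr rfl h1, ← Finset.mul_sum]
      calc T.card * (T.card * ∑ c ∈ box T ℓ, (Z G (ext c) ℓ).card)
          ≤ T.card * (T.card ^ ℓ * (T.card * (1 + adds G ℓ * N) + adds G ℓ * D)) :=
            Nat.mul_le_mul_left _ ih'
        _ = _ := by rw [pow_succ]; ring
    | add g =>
      rw [adds_succ_add G ℓ g hG]
      choose F hF using fun c : Fin ℓ → ℤ => Z_succ_add G ℓ g hG (ext c)
      have h1 : ∀ c ∈ box T ℓ, ∑ t ∈ T, (Z G (ext (Fin.snoc c t : Fin (ℓ + 1) → ℤ)) (ℓ + 1)).card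
          ≤ (T.card * N + D) + T.card * (Z G (ext c) ℓ).card := by
        intro c _
        have hDc : ∀ t ∈ T, Ok (F c + C t) := by
          intro t _
          have := hOk (ext (Fin.snoc c t : Fin (ℓ + 1) → ℤ)) ℓ (by omega)
          rw [(hF c _ (ext_snoc_lt c t)).1, ext_snoc_last] at this
          exact this
        calc ∑ t ∈ T, (Z G (ext (Fin.snoc c t : Fin (ℓ + 1) → ℤ)) (ℓ + 1)).card
            ≤ ∑ t ∈ T, ((rts (F c + C t)).card + (Z G (ext c) ℓ).card) := by
              apply Finset.sum_le_sum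
              intro t _
              rw [(hF c _ (ext_snoc_lt c t)).2, ext_snoc_last]
              exact Finset.card_union_le _ _
          _ = ∑ t ∈ T, (rts (F c + C t)).card + T.card * (Z G (ext c) ℓ).card := by
              rw [Finset.sum_add_distrib, Finset.sum_const, smul_eq_mul]
          _ ≤ _ := Nat.add_le_add_right (hT (F c) hDc) _
      calc T.card * ∑ c ∈ box T ℓ, ∑ t ∈ T,
            (Z G (ext (Fin.snoc c t : Fin (ℓ + 1) → ℤ)) (ℓ + 1)).card
          ≤ T.card * ∑ c ∈ box T ℓ, ((T.card * N + D) + T.card * (Z G (ext c) ℓ).card) :=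
            Nat.mul_le_mul_left _ (Finset.sum_le_sum h1)
        _ = T.card * (T.card ^ ℓ * (T.card * N + D))
            + T.card * (T.card * ∑ c ∈ box T ℓ, (Z G (ext c) ℓ).card) := by
            rw [Finset.sum_add_distrib, Finset.sum_const, smul_eq_mul, card_box, ← Finset.mul_sum]
            ring
        _ ≤ T.card * (T.card ^ ℓ * (T.card * N + D))
            + T.card * (T.card ^ ℓ * (T.card * (1 + adds G ℓ * N) + adds G ℓ * D)) :=
            Nat.add_le_add_left (Nat.mul_le_mul_left _ ih') _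
        _ = _ := by rw [pow_succ]; ring

end TH356.Tau
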