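import Pool.Agent.TH356.Tau.Smooth

/-!
# Straight-line programs whose additive gates carry free integer constants
-/

open Polynomial Finset

namespace TH356.Tau

/-- Gate number `k` of a program.  It may use the results with index `< k + 2`: result `0` is the
constant `1`, result `1` is the variable `X`, and gate `k` produces result `k + 2`. -/
inductive Gate (k : ℕ) : Type
  /-- the product gate `a * ∏ pᵢ ^ mᵢ`, with no free constant -/
  | mul (a : ℤ) (m : Fin (k + 2) → ℕ) : Gate k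
  /-- the additive gate `g (p₀, …, p₍ₖ₊₁₎) + cₖ` with `g` any integer polynomial and `cₖ` free -/
  | add (g : MvPolynomial (Fin (k + 2)) ℤ) : Gate k

/-- Whether a gate is additive. -/
def Gate.isAdd {k : ℕ} : Gate k → Bool
  | .mul _ _ => false
  | .add _ => true

/-- The degree of a gate. -/
noncomputable def Gate.deg {k : ℕ} : Gate k → ℕ
  | .mul _ m => ∑ i, m i
  | .add g => g.totalDegree

/-- A program: its gates `0, 1, 2, …` (only the first `ℓ` of them matter for `ℓ` steps). -/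
abbrev Prog := (k : ℕ) → Gate k

/-- The results of the program `G` when the free constant of gate `k` is `c k`. -/
noncomputable def val (G : Prog) (c : ℕ → ℤ) : ℕ → ℤ[X]
  | 0 => 1
  | 1 => X
  | k + 2 =>
    match G k with
    | .mul a m => C a * ∏ i : Fin (k + 2), val G c i ^ m i
    | .add g => MvPolynomial.aeval (fun i : Fin (k + 2) => val G c i) g + C (c k)
  decreasing_by all_goals exact i.isLt

theorem val_zero (G : Prog) (c : ℕ → ℤ) : val G c 0 = 1 := by rw [val]
theorem val_one (G : Prog) (c : ℕ → ℤ) : val G c 1 = X := by rw [val]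

theorem val_mul (G : Prog) (c : ℕ → ℤ) (k : ℕ) (a : ℤ) (m : Fin (k + 2) → ℕ)
    (h : G k = .mul a m) :
    val G c (k + 2) = C a * ∏ i : Fin (k + 2), val G c i ^ m i := by
  rw [val, h]

theorem val_add (G : Prog) (c : ℕ → ℤ) (k : ℕ) (g : MvPolynomial (Fin (k + 2)) ℤ)
    (h : G k = .add g) :
    val G c (k + 2) =
      MvPolynomial.aeval (fun i : Fin (k + 2) => val G c i) g + C (c k) := by
  rw [val, h]

/-- The integers that are a root of one of the nonzero polynomials computed in `ℓ` steps. -/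
noncomputable def Z (G : Prog) (c : ℕ → ℤ) (ℓ : ℕ) : Finset ℤ :=
  (Finset.range (ℓ + 2)).biUnion fun k => rts (val G c k)

/-- The number of additive gates among the first `ℓ` gates. -/
def adds (G : Prog) (ℓ : ℕ) : ℕ := ((Finset.range ℓ).filter fun k => (G k).isAdd = true).card

theorem adds_le (G : Prog) (ℓ : ℕ) : adds G ℓ ≤ ℓ := by
  have := Finset.card_filter_le (Finset.range ℓ) (fun k => (G k).isAdd = true)
  simpa [adds] using this

theorem adds_succ_mul (G : Prog) (ℓ : ℕ) (a : ℤ) (m : Fin (ℓ + 2) → ℕ) (h : G ℓ = .mul a m) :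
    adds G (ℓ + 1) = adds G ℓ := by
  have h' : ¬ (G ℓ).isAdd = true := by rw [h]; simp [Gate.isAdd]
  rw [adds, adds, Finset.range_add_one, Finset.filter_insert, if_neg h']

theorem adds_succ_add (G : Prog) (ℓ : ℕ) (g : MvPolynomial (Fin (ℓ + 2)) ℤ) (h : G ℓ = .add g) :
    adds G (ℓ + 1) = adds G ℓ + 1 := by
  have h' : (G ℓ).isAdd = true := by rw [h]; simp [Gate.isAdd]
  rw [adds, adds, Finset.range_add_one, Finset.filter_insert, if_pos h',
    Finset.card_insert_of_notMem (by simp)]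

theorem val_congr (G : Prog) {c c' : ℕ → ℤ} {ℓ : ℕ} (h : ∀ k < ℓ, c k = c' k) :
    ∀ j < ℓ + 2, val G c j = val G c' j := by
  intro j
  induction j using Nat.strong_induction_on with
  | _ j ih =>
    intro hj
    match j, ih, hj with
    | 0, _, _ => rw [val_zero, val_zero]
    | 1, _, _ => rw [val_one, val_one]
    | k + 2, ih, hj =>
      cases hG : G k with
      | mul a m =>
        rw [val_mul G c k a m hG, val_mul G c' k a m hG]
        congr 1
        apply Finset.prod_congr rfl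
        intro i _
        rw [ih i i.isLt (by omega)]
      | add g =>
        rw [val_add G c k g hG, val_add G c' k g hG, h k (by omega)]
        congr 2
        have : (fun i : Fin (k + 2) => val G c i) = fun i : Fin (k + 2) => val G c' i := by
          funext i
          exact ih i i.isLt (by omega)
        rw [this]

theorem Z_congr (G : Prog) {c c' : ℕ → ℤ} {ℓ : ℕ} (h : ∀ k < ℓ, c k = c' k) :
    Z G c ℓ = Z G c' ℓ := by
  unfold Z
  apply Finset.biUnion_congr rfl
  intro k hk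
  rw [val_congr G h k (Finset.mem_range.1 hk)]

theorem Z_succ (G : Prog) (c : ℕ → ℤ) (ℓ : ℕ) :
    Z G c (ℓ + 1) = rts (val G c (ℓ + 2)) ∪ Z G c ℓ := by
  classical
  unfold Z
  rw [show ℓ + 1 + 2 = (ℓ + 2) + 1 by ring, Finset.range_add_one, Finset.biUnion_insert]

theorem Z_zero (G : Prog) (c : ℕ → ℤ) : (Z G c 0).card ≤ 1 := by
  classical
  have : Z G c 0 ⊆ {0} := by
    intro y hy
    unfold Z at hy
    rw [Finset.mem_biUnion] at hy
    obtain ⟨k, hk, hy⟩ := hy
    rw [Finset.mem_range] at hk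
    obtain rfl | rfl : k = 0 ∨ k = 1 := by omega
    · rw [val_zero, mem_rts] at hy
      simp at hy
    · rw [val_one, mem_rts] at hy
      simp at hy
      simpa using hy
  exact (Finset.card_le_card this).trans (by simp)

theorem Z_succ_mul (G : Prog) (c : ℕ → ℤ) (ℓ : ℕ) (a : ℤ) (m : Fin (ℓ + 2) → ℕ)
    (h : G ℓ = .mul a m) : Z G c (ℓ + 1) = Z G c ℓ := by
  classical
  rw [Z_succ, Finset.union_eq_right]
  intro y hy
  rw [val_mul G c ℓ a m h, mem_rts] at hy
  obtain ⟨hne, hy⟩ := hy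
  rw [eval_mul, eval_C, eval_prod] at hy
  have ha : a ≠ 0 := by
    rintro rfl
    simp at hne
  have hprod : ∏ i : Fin (ℓ + 2), (val G c i ^ m i) ≠ 0 := right_ne_zero_of_mul hne
  rw [mul_eq_zero, or_iff_right ha, Finset.prod_eq_zero_iff] at hy
  obtain ⟨i, _, hi⟩ := hy
  rw [Finset.prod_ne_zero_iff] at hprod
  have hi' := hprod i (Finset.mem_univ i)
  rw [eval_pow] at hi
  have hm : m i ≠ 0 := by
    intro h0
    rw [h0] at hi
    simp at hi
  unfold Z
  rw [Finset.mem_biUnion]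
  refine ⟨i, Finset.mem_range.2 i.isLt, ?_⟩
  rw [mem_rts]
  exact ⟨fun h0 => hi' (by rw [h0, zero_pow hm]), pow_eq_zero_iff hm |>.1 hi⟩

/-- the polynomial in front of the free constant of an additive gate -/
theorem Z_succ_add (G : Prog) (ℓ : ℕ) (g : MvPolynomial (Fin (ℓ + 2)) ℤ)
    (h : G ℓ = .add g) (c : ℕ → ℤ) :
    ∃ f : ℤ[X], ∀ c' : ℕ → ℤ, (∀ k < ℓ, c' k = c k) →
      val G c' (ℓ + 2) = f + C (c' ℓ) ∧ Z G c' (ℓ + 1) = rts (f + C (c' ℓ)) ∪ Z G c ℓ := by
  classical
  refine ⟨MvPolynomial.aeval (fun i : Fin (ℓ + 2) => val G c i) g, fun c' hc' => ?_⟩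
  have hv : (fun i : Fin (ℓ + 2) => val G c' i) = fun i : Fin (ℓ + 2) => val G c i := by
    funext i
    exact val_congr G hc' i i.isLt
  have h1 : val G c' (ℓ + 2) =
      MvPolynomial.aeval (fun i : Fin (ℓ + 2) => val G c i) g + C (c' ℓ) := by
    rw [val_add G c' ℓ g h, hv]
  refine ⟨h1, ?_⟩
  rw [Z_succ, h1, Z_congr G hc']

/-- Extension of a vector of free constants by zero. -/
def ext {ℓ : ℕ} (c : Fin ℓ → ℤ) : ℕ → ℤ := fun k => if h : k < ℓ then c ⟨k, h⟩ else 0

theorem ext_snoc_lt {ℓ : ℕ} (c : Fin ℓ → ℤ) (t : ℤ) (k : ℕ) (hk : k < ℓ) :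
    ext (Fin.snoc c t : Fin (ℓ + 1) → ℤ) k = ext c k := by
  unfold ext
  rw [dif_pos hk, dif_pos (by omega)]
  have : (⟨k, by omega⟩ : Fin (ℓ + 1)) = Fin.castSucc ⟨k, hk⟩ := rfl
  rw [this, Fin.snoc_castSucc (α := fun _ => ℤ)]

theorem ext_snoc_last {ℓ : ℕ} (c : Fin ℓ → ℤ) (t : ℤ) :
    ext (Fin.snoc c t : Fin (ℓ + 1) → ℤ) ℓ = t := by
  unfold ext
  rw [dif_pos (by omega)]
  have : (⟨ℓ, by omega⟩ : Fin (ℓ + 1)) = Fin.last ℓ := rfl
  rw [this, Fin.snoc_last (α := fun _ => ℤ)]

/-- The vectors of free constants with entries in `T`. -/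
def box (T : Finset ℤ) (ℓ : ℕ) : Finset (Fin ℓ → ℤ) := Fintype.piFinset fun _ => T

theorem mem_box {T : Finset ℤ} {ℓ : ℕ} {c : Fin ℓ → ℤ} : c ∈ box T ℓ ↔ ∀ k, c k ∈ T := by
  simp [box]

theorem snoc_mem_box {T : Finset ℤ} {ℓ : ℕ} {c : Fin ℓ → ℤ} {t : ℤ} (hc : c ∈ box T ℓ)
    (ht : t ∈ T) : (Fin.snoc c t : Fin (ℓ + 1) → ℤ) ∈ box T (ℓ + 1) := by
  rw [mem_box] at hc ⊢
  intro k
  refine Fin.lastCases ?_ (fun i => ?_) k
  · rw [Fin.snoc_last (α := fun _ => ℤ)]; exact ht
  · rw [Fin.snoc_castSucc (α := fun _ => ℤ)]; exact hc i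

theorem card_box (T : Finset ℤ) (ℓ : ℕ) : (box T ℓ).card = T.card ^ ℓ := by
  simp [box, Fintype.card_piFinset]

/-- The vectors of free constants for which few integers are roots. -/
noncomputable def good (G : Prog) (T : Finset ℤ) (N ℓ : ℕ) : Finset (Fin ℓ → ℤ) :=
  (box T ℓ).filter fun c => (Z G (ext c) ℓ).card ≤ 1 + adds G ℓ * N

theorem mem_good {G : Prog} {T : Finset ℤ} {N ℓ : ℕ} {c : Fin ℓ → ℤ} :
    c ∈ good G T N ℓ ↔ c ∈ box T ℓ ∧ (Z G (ext c) ℓ).card ≤ 1 + adds G ℓ * N := by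
  rw [good, Finset.mem_filter]

theorem snoc_injOn {ℓ : ℕ} :
    Function.Injective (fun p : (_ : Fin ℓ → ℤ) × ℤ => (Fin.snoc p.1 p.2 : Fin (ℓ + 1) → ℤ)) := by
  intro p q h
  have h1 := Fin.snoc_injective2 (α := fun _ : Fin (ℓ + 1) => ℤ) h
  obtain ⟨p1, p2⟩ := p
  obtain ⟨q1, q2⟩ := q
  simp only at h1
  rw [h1.1, h1.2]

/-- **Counting.**  Suppose that, for each polynomial `f` with `Ok (f + t)` for all `t ∈ T`, at most
`b` elements `t` of `T` are such that `f + t` has more than `N` integer roots. -/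
theorem card_good_ge (G : Prog) (T : Finset ℤ) (N b : ℕ) (Ok : ℤ[X] → Prop)
    (hT : ∀ f : ℤ[X], (∀ t ∈ T, Ok (f + C t)) →
      T.card - b ≤ (T.filter (fun t => (rts (f + C t)).card ≤ N)).card) (ℓ : ℕ)
    (hOk : ∀ (c : ℕ → ℤ), ∀ k < ℓ, Ok (val G c (k + 2))) :
    (T.card - b) ^ adds G ℓ * T.card ^ (ℓ - adds G ℓ) ≤ (good G T N ℓ).card := by
  classical
  induction ℓ with
  | zero =>
    have h0 : adds G 0 = 0 := by simp [adds]
    rw [h0]
    simp only [pow_zero, Nat.sub_self, mul_one]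
    rw [Nat.one_le_iff_ne_zero, Finset.card_ne_zero]
    refine ⟨fun i => i.elim0, ?_⟩
    rw [mem_good]
    exact ⟨mem_box.2 fun k => k.elim0, by rw [h0]; simpa using Z_zero G _⟩
  | succ ℓ ih =>
    have ih' := ih fun c k hk => hOk c k (by omega)
    cases hG : G ℓ with
    | mul a m =>
      rw [adds_succ_mul G ℓ a m hG]
      have hle := adds_le G ℓ
      have h1 : ((good G T N ℓ).sigma fun _ => T).card ≤ (good G T N (ℓ + 1)).card := by
        apply Finset.card_le_card_of_injOn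
          (fun p : (_ : Fin ℓ → ℤ) × ℤ => (Fin.snoc p.1 p.2 : Fin (ℓ + 1) → ℤ))
        · rintro ⟨c, t⟩ hp
          rw [Finset.mem_coe, Finset.mem_sigma] at hp
          obtain ⟨hc, ht⟩ := hp
          simp only at hc ht
          rw [mem_good] at hc
          rw [Finset.mem_coe, mem_good]
          refine ⟨snoc_mem_box hc.1 ht, ?_⟩
          rw [Z_succ_mul G _ ℓ a m hG, adds_succ_mul G ℓ a m hG,
            Z_congr G (ext_snoc_lt c t)]
          exact hc.2
        · exact fun _ _ _ _ h => snoc_injOn h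
      rw [Finset.card_sigma, Finset.sum_const, smul_eq_mul] at h1
      calc (T.card - b) ^ adds G ℓ * T.card ^ (ℓ + 1 - adds G ℓ)
          = ((T.card - b) ^ adds G ℓ * T.card ^ (ℓ - adds G ℓ)) * T.card := by
            rw [show ℓ + 1 - adds G ℓ = (ℓ - adds G ℓ) + 1 by omega, pow_succ, mul_assoc]
        _ ≤ (good G T N ℓ).card * T.card := Nat.mul_le_mul_right _ ih'
        _ ≤ _ := h1
    | add g =>
      rw [adds_succ_add G ℓ g hG]
      have hle := adds_le G ℓ
      choose F hF using fun c : Fin ℓ → ℤ => Z_succ_add G ℓ g hG (ext c)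
      have h1 : ((good G T N ℓ).sigma fun c =>
          T.filter (fun t => (rts (F c + C t)).card ≤ N)).card ≤ (good G T N (ℓ + 1)).card := by
        apply Finset.card_le_card_of_injOn
          (fun p : (_ : Fin ℓ → ℤ) × ℤ => (Fin.snoc p.1 p.2 : Fin (ℓ + 1) → ℤ))
        · rintro ⟨c, t⟩ hp
          rw [Finset.mem_coe, Finset.mem_sigma] at hp
          obtain ⟨hc, ht⟩ := hp
          simp only at hc ht
          rw [mem_good] at hc
          rw [Finset.mem_filter] at ht
          rw [Finset.mem_coe, mem_good]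
          refine ⟨snoc_mem_box hc.1 ht.1, ?_⟩
          rw [(hF c _ (ext_snoc_lt c t)).2, ext_snoc_last, adds_succ_add G ℓ g hG]
          have := Finset.card_union_le (rts (F c + C t)) (Z G (ext c) ℓ)
          have e : (adds G ℓ + 1) * N = adds G ℓ * N + N := by ring
          rw [e]
          omega
        · exact fun _ _ _ _ h => snoc_injOn h
      rw [Finset.card_sigma] at h1
      have hOkF : ∀ c : Fin ℓ → ℤ, ∀ t ∈ T, Ok (F c + C t) := by
        intro c t _
        have := hOk (ext (Fin.snoc c t : Fin (ℓ + 1) → ℤ)) ℓ (by omega)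
        rw [(hF c _ (ext_snoc_lt c t)).1, ext_snoc_last] at this
        exact this
      have h2 : (good G T N ℓ).card * (T.card - b) ≤ ∑ c ∈ good G T N ℓ,
          (T.filter (fun t => (rts (F c + C t)).card ≤ N)).card := by
        rw [← smul_eq_mul, ← Finset.sum_const]
        exact Finset.sum_le_sum fun c _ => hT (F c) (hOkF c)
      calc (T.card - b) ^ (adds G ℓ + 1) * T.card ^ (ℓ + 1 - (adds G ℓ + 1))
          = ((T.card - b) ^ adds G ℓ * T.card ^ (ℓ - adds G ℓ)) * (T.card - b) := by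
            rw [show ℓ + 1 - (adds G ℓ + 1) = ℓ - adds G ℓ by omega, pow_succ]; ring
        _ ≤ (good G T N ℓ).card * (T.card - b) := Nat.mul_le_mul_right _ ih'
        _ ≤ _ := h2.trans h1

end TH356.Tau
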