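import Mathlib

/-!
# Integer roots of `f + c`: a separation property, and straight-line programs with free constants
-/

open Polynomial Finset

namespace TH356.Tau

/-- `hf m = ⌊m/2⌋! * ⌈m/2⌉!`. -/
def hf (m : ℕ) : ℕ := (m / 2).factorial * ((m + 1) / 2).factorial

theorem hf_mono : Monotone hf := by
  intro a b hab
  exact Nat.mul_le_mul (Nat.factorial_le (by omega)) (Nat.factorial_le (by omega))

theorem hf_le_factorial_mul (a b : ℕ) : hf (a + b) ≤ a.factorial * b.factorial := by
  have h1 : (a + b).choose a ≤ (a + b).choose ((a + b) / 2) := Nat.choose_le_middle a (a + b)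
  have h2 : (a + b).choose a * a.factorial * b.factorial = (a + b).factorial := by
    have := Nat.choose_mul_factorial_mul_factorial (Nat.le_add_right a b)
    simpa using this
  have h3 : (a + b).choose ((a + b) / 2) * ((a + b) / 2).factorial
      * ((a + b + 1) / 2).factorial = (a + b).factorial := by
    have := Nat.choose_mul_factorial_mul_factorial (n := a + b) (k := (a + b) / 2) (by omega)
    have e : a + b - (a + b) / 2 = (a + b + 1) / 2 := by omega
    rwa [e] at this
  have hpos : 0 < (a + b).choose ((a + b) / 2) := Nat.choose_pos (by omega)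
  have h4 : (a + b).choose ((a + b) / 2) * hf (a + b)
      ≤ (a + b).choose ((a + b) / 2) * (a.factorial * b.factorial) := by
    calc (a + b).choose ((a + b) / 2) * hf (a + b) = (a + b).factorial := by
          rw [hf, ← mul_assoc, h3]
      _ = (a + b).choose a * (a.factorial * b.factorial) := by rw [← mul_assoc, h2]
      _ ≤ _ := Nat.mul_le_mul_right _ h1
  exact Nat.le_of_mul_le_mul_left h4 hpos

/-- A product of `n` distinct positive integers is at least `n!`. -/
theorem factorial_le_prod (S : Finset ℕ) (hS : ∀ s ∈ S, 0 < s) :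
    S.card.factorial ≤ ∏ s ∈ S, s := by
  induction S using Finset.strongInduction with
  | H S ih =>
    rcases S.eq_empty_or_nonempty with rfl | hne
    · simp
    · set M := S.max' hne with hM
      have hMS : M ∈ S := S.max'_mem hne
      have hsub : S ⊆ Finset.Icc 1 M := by
        intro s hs
        rw [Finset.mem_Icc]
        exact ⟨hS s hs, S.le_max' s hs⟩
      have hcard : S.card ≤ M := by
        have := Finset.card_le_card hsub
        simpa using this
      have ih' := ih (S.erase M) (Finset.erase_ssubset hMS)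
        (fun s hs => hS s (Finset.mem_of_mem_erase hs))
      rw [← Finset.mul_prod_erase S (fun s => s) hMS]
      have hc : (S.erase M).card + 1 = S.card := Finset.card_erase_add_one hMS
      rw [← hc, Nat.factorial_succ, hc]
      exact Nat.mul_le_mul hcard ih'

/-- A product of the absolute values of `m` distinct nonzero integers is at least
`⌊m/2⌋! * ⌈m/2⌉!`. -/
theorem hf_le_prod (S : Finset ℤ) (h0 : (0 : ℤ) ∉ S) :
    hf S.card ≤ ∏ s ∈ S, s.natAbs := by
  classical
  set A := S.filter (fun s => 0 < s) with hA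
  set B := S.filter (fun s => ¬ 0 < s) with hB
  have hcard : A.card + B.card = S.card := Finset.card_filter_add_card_filter_not _
  have hprod : (∏ s ∈ A, s.natAbs) * (∏ s ∈ B, s.natAbs) = ∏ s ∈ S, s.natAbs :=
    Finset.prod_filter_mul_prod_filter_not _ _ _
  have hAinj : Set.InjOn Int.natAbs (A : Set ℤ) := by
    intro x hx y hy hxy
    have hx' : 0 < x := (Finset.mem_filter.1 hx).2
    have hy' : 0 < y := (Finset.mem_filter.1 hy).2
    omega
  have hBinj : Set.InjOn Int.natAbs (B : Set ℤ) := by
    intro x hx y hy hxy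
    have hx' : ¬ 0 < x := (Finset.mem_filter.1 hx).2
    have hy' : ¬ 0 < y := (Finset.mem_filter.1 hy).2
    omega
  have hpos : ∀ s ∈ S, 0 < s.natAbs := by
    intro s hs
    have : s ≠ 0 := fun h => h0 (h ▸ hs)
    omega
  have h1 : A.card.factorial ≤ ∏ s ∈ A, s.natAbs := by
    have := factorial_le_prod (A.image Int.natAbs) (by
      intro s hs
      obtain ⟨x, hx, rfl⟩ := Finset.mem_image.1 hs
      exact hpos x (Finset.mem_of_mem_filter _ hx))
    rwa [Finset.card_image_of_injOn hAinj, Finset.prod_image (fun x hx y hy h => hAinj hx hy h)]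
      at this
  have h2 : B.card.factorial ≤ ∏ s ∈ B, s.natAbs := by
    have := factorial_le_prod (B.image Int.natAbs) (by
      intro s hs
      obtain ⟨x, hx, rfl⟩ := Finset.mem_image.1 hs
      exact hpos x (Finset.mem_of_mem_filter _ hx))
    rwa [Finset.card_image_of_injOn hBinj, Finset.prod_image (fun x hx y hy h => hBinj hx hy h)]
      at this
  calc hf S.card = hf (A.card + B.card) := by rw [hcard]
    _ ≤ A.card.factorial * B.card.factorial := hf_le_factorial_mul _ _
    _ ≤ (∏ s ∈ A, s.natAbs) * (∏ s ∈ B, s.natAbs) := Nat.mul_le_mul h1 h2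
    _ = _ := hprod

/-- The set of the distinct integer roots of `f` (empty for `f = 0`). -/
noncomputable def rts (f : ℤ[X]) : Finset ℤ := f.roots.toFinset

theorem mem_rts {f : ℤ[X]} {y : ℤ} : y ∈ rts f ↔ f ≠ 0 ∧ f.eval y = 0 := by
  rw [rts, Multiset.mem_toFinset, mem_roots']
  rfl

theorem prod_dvd (f : ℤ[X]) : (∏ r ∈ rts f, (X - C r)) ∣ f := by
  have h1 : (f.roots.map fun a => X - C a).prod ∣ f := prod_multiset_X_sub_C_dvd f
  have h2 : ((f.roots.dedup).map fun a => X - C a).prod ∣ (f.roots.map fun a => X - C a).prod :=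
    Multiset.prod_dvd_prod_of_le (Multiset.map_le_map (Multiset.dedup_le _))
  exact dvd_trans h2 h1

/-- **Separation.**  If `f + c'` has an integer root and `c ≠ c'`, and `f + c` has `m` distinct
integer roots, then `⌊m/2⌋! * ⌈m/2⌉! ≤ |c - c'|`. -/
theorem separation (f : ℤ[X]) {c c' y : ℤ} (hcc : c ≠ c') (hy : f.eval y + c' = 0) :
    (hf (rts (f + C c)).card : ℤ) ≤ |c - c'| := by
  classical
  set R := rts (f + C c) with hR
  have h1 : (∏ r ∈ R, (X - C r)).eval y ∣ (f + C c).eval y := eval_dvd (prod_dvd _)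
  have h2 : (f + C c).eval y = c - c' := by
    simp only [eval_add, eval_C]; linarith
  rw [h2, eval_prod] at h1
  have h3 : (∏ r ∈ R, (y - r)) ∣ c - c' := by simpa using h1
  have hinj : Set.InjOn (fun r : ℤ => y - r) (R : Set ℤ) := by
    intro a _ b _ hab
    simp only at hab
    linarith
  have h0 : (0 : ℤ) ∉ R.image (fun r => y - r) := by
    intro h
    obtain ⟨r, hr, hr0⟩ := Finset.mem_image.1 h
    have hyr : y = r := by linarith
    have := (mem_rts.1 hr).2
    rw [← hyr, h2] at this
    exact hcc (by linarith)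
  have h4 := hf_le_prod _ h0
  rw [Finset.card_image_of_injOn hinj, Finset.prod_image (fun a ha b hb h => hinj ha hb h)] at h4
  have h5 : (∏ r ∈ R, (y - r)).natAbs ∣ (c - c').natAbs := Int.natAbs_dvd_natAbs.2 h3
  have h6 : (∏ r ∈ R, (y - r)).natAbs ≤ (c - c').natAbs :=
    Nat.le_of_dvd (by omega) h5
  have h7 : (∏ r ∈ R, (y - r)).natAbs = ∏ r ∈ R, (y - r).natAbs :=
    map_prod Int.natAbsHom _ _
  rw [h7] at h6
  have h8 : hf R.card ≤ (c - c').natAbs := h4.trans h6
  rw [Int.abs_eq_natAbs]
  exact_mod_cast h8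

/-- At most one of the integers of a set of small diameter makes `f + c` have more than `N`
integer roots. -/
theorem atMostOne (f : ℤ[X]) (N : ℕ) {c c' : ℤ} (hd : |c - c'| < hf (N + 1))
    (h : N < (rts (f + C c)).card) (h' : N < (rts (f + C c')).card) : c = c' := by
  by_contra hcc
  obtain ⟨y, hy⟩ : (rts (f + C c')).Nonempty := Finset.card_pos.1 (by omega)
  have hy' := (mem_rts.1 hy).2
  rw [eval_add, eval_C] at hy'
  have h1 := separation f hcc hy'
  have h2 : hf (N + 1) ≤ hf (rts (f + C c)).card := hf_mono (by omega)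
  have h3 : (hf (N + 1) : ℤ) ≤ (hf (rts (f + C c)).card : ℤ) := by exact_mod_cast h2
  linarith

/-- the good constants of a set of small diameter -/
theorem card_good (f : ℤ[X]) (N : ℕ) (T : Finset ℤ)
    (hT : ∀ s ∈ T, ∀ t ∈ T, |s - t| < hf (N + 1)) :
    T.card - 1 ≤ (T.filter (fun t => (rts (f + C t)).card ≤ N)).card := by
  classical
  have h1 : (T.filter (fun t => ¬ (rts (f + C t)).card ≤ N)).card ≤ 1 := by
    rw [Finset.card_le_one]
    intro a ha b hb
    rw [Finset.mem_filter] at ha hb
    exact atMostOne f N (hT a ha.1 b hb.1) (not_le.1 ha.2) (not_le.1 hb.2)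
  have h2 := Finset.card_filter_add_card_filter_not (s := T)
    (fun t => (rts (f + C t)).card ≤ N)
  omega

theorem card_rts_le (f : ℤ[X]) : (rts f).card ≤ f.natDegree :=
  (Multiset.toFinset_card_le _).trans (card_roots' f)

theorem sum_le (f : ℤ[X]) (N D : ℕ) (T : Finset ℤ)
    (hT : ∀ s ∈ T, ∀ t ∈ T, |s - t| < hf (N + 1)) (hD : ∀ t ∈ T, (f + C t).natDegree ≤ D) :
    ∑ t ∈ T, (rts (f + C t)).card ≤ T.card * N + D := by
  classical
  by_cases hex : ∃ t ∈ T, N < (rts (f + C t)).card
  · obtain ⟨t, ht, htN⟩ := hex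
    rw [← Finset.add_sum_erase T _ ht]
    have h1 : ∑ x ∈ T.erase t, (rts (f + C x)).card ≤ ∑ x ∈ T.erase t, N := by
      apply Finset.sum_le_sum
      intro x hx
      by_contra hcon
      have hx' := Finset.mem_erase.1 hx
      exact hx'.1 (atMostOne f N (hT x hx'.2 t ht) (not_le.1 hcon) htN)
    have h2 : ∑ x ∈ T.erase t, N ≤ T.card * N := by
      rw [Finset.sum_const, smul_eq_mul]
      exact Nat.mul_le_mul_right _ (Finset.card_le_card (Finset.erase_subset _ _))
    have h3 : (rts (f + C t)).card ≤ D := (card_rts_le _).trans (hD t ht)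
    omega
  · push Not at hex
    calc ∑ t ∈ T, (rts (f + C t)).card ≤ ∑ t ∈ T, N := Finset.sum_le_sum hex
      _ = T.card * N := by rw [Finset.sum_const, smul_eq_mul]
      _ ≤ _ := Nat.le_add_right _ _

end TH356.Tau
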