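import Pool.Agent.TH356.Tau.Honest

/-!
# Arbitrary finite sets of constants
-/

open Polynomial Finset

namespace TH356.Tau

/-- A set of integers with gaps at least `g` and diameter at most `L` has at most `1 + L / g`
elements. -/
theorem card_sep (S : Finset ℤ) (g L : ℕ) (hg : 0 < g)
    (h1 : ∀ s ∈ S, ∀ t ∈ S, s ≠ t → (g : ℤ) ≤ |s - t|) (h2 : ∀ s ∈ S, ∀ t ∈ S, |s - t| ≤ L) :
    S.card ≤ 1 + L / g := by
  classical
  rcases S.eq_empty_or_nonempty with rfl | hne
  · simp
  set m := S.min' hne with hm
  have hmS : m ∈ S := S.min'_mem hne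
  have hle : ∀ s ∈ S, 0 ≤ s - m := fun s hs => by
    have := S.min'_le s hs
    omega
  have hcard : S.card ≤ (Finset.range (1 + L / g)).card := by
    apply Finset.card_le_card_of_injOn (fun s => (s - m).toNat / g)
    · intro s hs
      rw [Finset.mem_coe] at hs
      rw [Finset.mem_coe, Finset.mem_range]
      have h3 := h2 s hs m hmS
      have h4 := hle s hs
      rw [abs_of_nonneg h4] at h3
      have h5 : (s - m).toNat ≤ L := by omega
      have := Nat.div_le_div_right (c := g) h5
      simp only
      omega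
    · intro s hs t ht hst
      rw [Finset.mem_coe] at hs ht
      by_contra hne'
      have h3 := h1 s hs t ht hne'
      have h4 := hle s hs
      have h5 := hle t ht
      simp only at hst
      set a := (s - m).toNat with ha
      set b := (t - m).toNat with hb
      have h6 : |s - t| < g := by
        have ea : (a : ℤ) = s - m := Int.toNat_of_nonneg h4
        have eb : (b : ℤ) = t - m := Int.toNat_of_nonneg h5
        have h7 := Nat.div_add_mod a g
        have h8 := Nat.div_add_mod b g
        have h9 := Nat.mod_lt a hg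
        have h10 := Nat.mod_lt b hg
        rw [hst] at h7
        have h11 : (a : ℤ) - b = ((a % g : ℕ) : ℤ) - ((b % g : ℕ) : ℤ) := by
          have e1 : (a : ℤ) = ((g * (b / g) + a % g : ℕ) : ℤ) := by exact_mod_cast h7.symm
          have e2 : (b : ℤ) = ((g * (b / g) + b % g : ℕ) : ℤ) := by exact_mod_cast h8.symm
          calc (a : ℤ) - b = ((g * (b / g) + a % g : ℕ) : ℤ) - ((g * (b / g) + b % g : ℕ) : ℤ) := by
                rw [← e1, ← e2]
            _ = _ := by push_cast; ring
        have h12 : s - t = (a : ℤ) - b := by rw [ea, eb]; ring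
        rw [h12, h11, abs_lt]
        omega
      omega
  rwa [Finset.card_range] at hcard

/-- **Tail.** -/
theorem card_good_tail (f : ℤ[X]) (N L : ℕ) (T : Finset ℤ)
    (hT : ∀ s ∈ T, ∀ t ∈ T, |s - t| ≤ L) :
    T.card - (1 + L / hf (N + 1)) ≤ (T.filter (fun t => (rts (f + C t)).card ≤ N)).card := by
  classical
  have hpos : 0 < hf (N + 1) := Nat.mul_pos (Nat.factorial_pos _) (Nat.factorial_pos _)
  have h1 : (T.filter (fun t => ¬ (rts (f + C t)).card ≤ N)).card ≤ 1 + L / hf (N + 1) := by
    apply card_sep _ _ _ hpos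
    · intro s hs t ht hst
      rw [Finset.mem_filter] at hs ht
      by_contra hcon
      exact hst (atMostOne f N (not_le.1 hcon) (not_le.1 hs.2) (not_le.1 ht.2))
    · intro s hs t ht
      exact hT s (Finset.mem_filter.1 hs).1 t (Finset.mem_filter.1 ht).1
  have h2 := Finset.card_filter_add_card_filter_not (s := T)
    (fun t => (rts (f + C t)).card ≤ N)
  omega

theorem count_tail (G : Prog) (ℓ N L : ℕ) (T : Finset ℤ)
    (hT : ∀ s ∈ T, ∀ t ∈ T, |s - t| ≤ L) :
    (T.card - (1 + L / hf (N + 1))) ^ adds G ℓ * T.card ^ (ℓ - adds G ℓ) ≤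
      (good G T N ℓ).card :=
  card_good_ge G T N _ (fun _ => True) (fun f _ => card_good_tail f N L T hT) ℓ
    (fun _ _ _ => trivial)

end TH356.Tau
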